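import Mathlib
import Pool.Agent.H24.OPP.TTDefs

/-!
# A simple separable nuclear C*-algebra that is not anti-isomorphic to itself: definitions

`J = II × Finset ℕ`, one new copy of the old indices at every stage `m` (with type `m mod (hh+1)`),
`H = ℓ²(J)`, the algebra `AA` is a closed star subalgebra of `C(SS, B(H))`.
-/

set_option autoImplicit false

namespace Pool.OPP

open scoped Topology ComplexConjugate

noncomputable section

/-! ### the finite data -/

theorem cover_exists : ∃ (h : ℕ) (c : Fin h → CSph 3), ∀ y : CSph 3, ∃ w,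
    4 / 5 ≤ ‖inner ℂ (c w : EuclideanSpace ℂ (Fin 3)) (y : EuclideanSpace ℂ (Fin 3))‖ := by
  classical
  let U : CSph 3 → Set (CSph 3) := fun c =>
    {y | 4 / 5 < ‖inner ℂ (c : EuclideanSpace ℂ (Fin 3)) (y : EuclideanSpace ℂ (Fin 3))‖}
  have hU : ∀ c, IsOpen (U c) := by
    intro c
    apply isOpen_lt continuous_const
    exact (Continuous.inner continuous_const continuous_subtype_val).norm
  have hcov : (Set.univ : Set (CSph 3)) ⊆ ⋃ c, U c := by
    intro y _
    refine Set.mem_iUnion.2 ⟨y, ?_⟩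
    show (4 : ℝ) / 5 < ‖inner ℂ (y : EuclideanSpace ℂ (Fin 3)) (y : EuclideanSpace ℂ (Fin 3))‖
    rw [inner_self_eq_norm_sq_to_K, norm_eq_of_mem_sphere]
    norm_num
  obtain ⟨t, ht⟩ := isCompact_univ.elim_finite_subcover U hU hcov
  refine ⟨t.card, fun i => (t.equivFin.symm i : CSph 3), fun y => ?_⟩
  have := ht (Set.mem_univ y)
  simp only [Set.mem_iUnion] at this
  obtain ⟨c, hc, hy⟩ := this
  refine ⟨t.equivFin ⟨c, hc⟩, ?_⟩
  simp only [Equiv.symm_apply_apply]
  exact le_of_lt hy

/-- number of centres -/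
def hh : ℕ := cover_exists.choose

/-- the centres -/
def cc : Fin hh → CSph 3 := cover_exists.choose_spec.choose

theorem cc_cover (y : CSph 3) : ∃ w,
    4 / 5 ≤ ‖inner ℂ (cc w : EuclideanSpace ℂ (Fin 3)) (y : EuclideanSpace ℂ (Fin 3))‖ :=
  cover_exists.choose_spec.choose_spec y

/-- `n_w = 6 (M + (hh+1)^w)`, `M = (hh+1)^(hh+1)` -/
def nw (w : ℕ) : ℕ := 6 * ((hh + 1) ^ (hh + 1) + (hh + 1) ^ w)

/-- `κ = 6 K + 3` -/
def kap : ℕ := 6 * ((∑ w ∈ Finset.range hh, nw w) + 1) + 3

/-- block sizes: `nn 0 = κ` (block C), `nn (w+1) = n_w` -/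
def nn (v : Fin (hh + 1)) : ℕ := if (v : ℕ) = 0 then kap else nw ((v : ℕ) - 1)

theorem nn_zero : nn 0 = kap := by simp [nn]

theorem nn_succ (w : Fin hh) : nn w.succ = nw w := by simp [nn]

theorem two_lt_nn (v : Fin (hh + 1)) : 2 < nn v := by
  unfold nn
  split_ifs
  · unfold kap; omega
  · unfold nw
    have : 0 < (hh + 1) ^ (hh + 1) := by positivity
    omega

/-- the base indices -/
abbrev II : Type := Σ v : Fin (hh + 1), Fin (nn v)

/-- the special index `i*` -/
def istar : II := ⟨0, ⟨0, by have := two_lt_nn 0; omega⟩⟩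

/-- the reference index of each block: `j0` in the block C, `i_w` in the block `w` -/
def bas (v : Fin (hh + 1)) : II := ⟨v, ⟨1, by have := two_lt_nn v; omega⟩⟩

theorem bas_ne_istar (v : Fin (hh + 1)) : bas v ≠ istar := by
  intro h
  unfold bas istar at h
  have h1 : v = 0 := congrArg Sigma.fst h
  subst h1
  simp at h

/-- all indices -/
abbrev JI : Type := II × Finset ℕ

/-- type of an index -/
def typ (s : JI) : Fin (hh + 1) :=
  if s.2.Nonempty then Fin.ofNat (hh + 1) (s.2.sup id) else s.1.1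

/-- the sphere under which an index has weight `om` -/
def wt (s : JI) : Option ℕ :=
  if s.2.Nonempty then some (s.2.sup id + 1) else if s.1 = istar then some 0 else none

/-- number of base indices -/
def cI : ℕ := Fintype.card II

/-- number of generators -/
def cG : ℕ := cI * cI + 2 * hh + 15

/-- dimensions of the spheres -/
def NN : ℕ → ℕ
  | 0 => 3
  | (j + 1) => 2 * (cG * (cI * 2 ^ j) * (cI + 2)) + 1

theorem NN_zero : NN 0 = 3 := rfl

/-- the base space: a product of spheres -/
abbrev SS := XX NN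

theorem NN_pos (j : ℕ) : 0 < NN j := by
  cases j <;> simp [NN]

instance instNonemptySS : Nonempty SS :=
  ⟨fun j => ⟨EuclideanSpace.single (⟨0, NN_pos j⟩ : Fin (NN j)) (1 : ℂ), by
    rw [mem_sphere_zero_iff_norm, EuclideanSpace.norm_single, norm_one]⟩⟩

/-- the coordinate vector in `ℂ³` -/
def y0 (x : SS) : EuclideanSpace ℂ (Fin 3) := (x 0 : EuclideanSpace ℂ (Fin (NN 0)))

/-- action of the group `(ℤ/3)^ℕ` -/
def act (γ : ℕ → ZMod 3) (x : SS) : SS := fun j =>
  ⟨om ^ (γ j).val • (x j : EuclideanSpace ℂ (Fin (NN j))), by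
    rw [mem_sphere_zero_iff_norm, norm_smul, norm_pow, norm_om, one_pow, one_mul,
      norm_eq_of_mem_sphere]⟩

/-- the diagonal weights -/
def chi (γ : ℕ → ZMod 3) (s : JI) : ℂ :=
  match wt s with
  | none => 1
  | some j => om ^ (γ j).val

/-- the closed sets `F_w` -/
def FF (w : Fin hh) : Set SS :=
  {x | 4 / 5 ≤ ‖inner ℂ (cc w : EuclideanSpace ℂ (Fin 3)) (y0 x)‖}

/-- `β_w` as a function on `ℂ³` -/
def bet (w : Fin hh) (y : EuclideanSpace ℂ (Fin 3)) : ℝ :=
  max 0 (4 / 5 - ‖inner ℂ (cc w : EuclideanSpace ℂ (Fin 3)) y‖)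

/-- basic entourages of the product, invariant under `act` -/
def Close (n : ℕ) (δ : ℝ) (x y : SS) : Prop :=
  ∀ j < n, ‖(x j : EuclideanSpace ℂ (Fin (NN j))) - (y j : EuclideanSpace ℂ (Fin (NN j)))‖ < δ

/-- admissible functions for the matrix coefficient `(s,t)` -/
def Adm (s t : JI) (h : C(SS, ℂ)) : Prop :=
  (∀ γ x, h (act γ x) = chi γ s * conj (chi γ t) * h x) ∧
  (∀ w : Fin hh, ∀ x ∈ FF w, ¬ (typ s = w.succ ↔ typ t = w.succ) → h x = 0) ∧
  ∃ n : ℕ, ∀ x y : SS, (∀ j < n, x j = y j) → h x = h y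

/-! ### operators -/

/-- the Hilbert space `ℓ²(JI)` -/
abbrev HH := lp (fun _ : JI => ℂ) 2

abbrev BH := HH →L[ℂ] HH

/-- the ambient C*-algebra -/
abbrev BB := C(SS, BH)

instance instBB : CStarAlgebra BB := inferInstance
instance instBBNormedRing : NormedRing BB := instBB.toNormedRing
instance instBBRing : Ring BB := instBBNormedRing.toRing
instance instBBSemiring : Semiring BB := instBBRing.toSemiring
instance instBBStarRing : StarRing BB := instBB.toStarRing
instance instBBAlgebra : Algebra ℂ BB := instBB.toNormedAlgebra.toAlgebra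
instance instBBStarModule : StarModule ℂ BB := instBB.toStarModule
instance instBBTopRing : IsTopologicalRing BB := inferInstance
instance instBBTopSemiring : IsTopologicalSemiring BB := inferInstance
instance instBBContinuousStar : ContinuousStar BB := inferInstance

/-- basis vector -/
def bv (s : JI) : HH := lp.single 2 s (1 : ℂ)

/-- matrix coefficient `⟨e_s, f e_t⟩` -/
def mc (f : BH) (s t : JI) : ℂ := (f (bv t) : JI → ℂ) s

/-- the part `< k` of an index -/
def low (k : ℕ) (u : JI) : JI := (u.1, u.2.filter (fun i => i < k))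

/-- the part `≥ k` of an index -/
def high (k : ℕ) (u : JI) : Finset ℕ := u.2.filter (fun i => k ≤ i)

/-- put a high part on an index -/
def jn (t : JI) (T : Finset ℕ) : JI := (t.1, t.2 ∪ T)

/-- the indices of level `k` -/
def JJ (k : ℕ) : Finset JI := Finset.univ ×ˢ (Finset.range k).powerset

/-- The operator `e_u ↦ [low k u = t] φ (high k u) e_{jn s (high k u)}` (`s t ∈ JJ k`, `φ` bounded) -/
def el (k : ℕ) (s t : JI) (φ : Finset ℕ → ℂ) : BH :=
  Classical.epsilon (fun W : BH => ∀ (ξ : HH) (v : JI),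
    (W ξ : JI → ℂ) v = if low k v = s then φ (high k v) * ξ (jn t (high k v)) else 0)

/-- the evaluation points: `z_m = ζ_(m / (hh+1))`, `ζ` with dense tails -/
def zz : ℕ → SS := fun m => TopologicalSpace.denseSeq SS (Nat.unpair (m / (hh + 1))).1

/-- the point at which the block `T` is evaluated -/
def pt (x : SS) (T : Finset ℕ) : SS :=
  if h : T.Nonempty then zz (T.min' h) else x

open Classical in
/-- the function `x ↦ el k s t (T ↦ h (pt x T))` -/
def GG (k : ℕ) (s t : JI) (h : C(SS, ℂ)) : BB :=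
  if hc : Continuous (fun x => el k s t (fun T => h (pt x T))) then
    ⟨fun x => el k s t (fun T => h (pt x T)), hc⟩ else 0

/-- diagonal unitary with entries `chi γ` -/
def UU (γ : ℕ → ZMod 3) : BH :=
  Classical.epsilon (fun W : BH => ∀ (ξ : HH) (v : JI), (W ξ : JI → ℂ) v = chi γ v * ξ v)

/-- projection on the indices of type `v` -/
def qq (v : Fin (hh + 1)) : BH :=
  Classical.epsilon (fun W : BH => ∀ (ξ : HH) (u : JI),
    (W ξ : JI → ℂ) u = if typ u = v then ξ u else 0)

/-- projection on the span of the `e_s`, `s ∈ JJ m` -/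
def PP (m : ℕ) : BH :=
  Classical.epsilon (fun W : BH => ∀ (ξ : HH) (u : JI),
    (W ξ : JI → ℂ) u = if u ∈ JJ m then ξ u else 0)

/-- elements of level `k` -/
def Lev (k : ℕ) (f : BB) : Prop :=
  ∃ a : JI → JI → C(SS, ℂ), (∀ s ∈ JJ k, ∀ t ∈ JJ k, Adm s t (a s t)) ∧
    f = ∑ s ∈ JJ k, ∑ t ∈ JJ k, GG k s t (a s t)

/-- the dense subalgebra -/
def A0 : StarSubalgebra ℂ BB := StarAlgebra.adjoin ℂ {f | ∃ k, Lev k f}

/-- The C*-algebra -/
abbrev AA : StarSubalgebra ℂ BB := A0.topologicalClosure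

instance instAAClosed : IsClosed ((AA : StarSubalgebra ℂ BB) : Set BB) :=
  StarSubalgebra.isClosed_topologicalClosure _

instance instAA : CStarAlgebra AA := StarSubalgebra.cstarAlgebra AA

end

end Pool.OPP
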