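import Mathlib
import Pool.Agent.H7.OPP.Defs
import Pool.Agent.H92.OPP.BridgeDefs

/-!
# OPP: module statements of the algebra block
-/

set_option autoImplicit false

open scoped Topology ComplexConjugate Uniformity

namespace Pool.OPP

noncomputable section

/-! ## Block A: operators -/

/-- NUM: the number facts N1, N2, N3 (and divisibility by 3) -/
def SNum : Prop :=
  (∀ d : Fin (hh + 1) → ℕ, ∑ v, nn v * d v = ∑ v, nn v → ∀ v, d v = 1) ∧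
  (∀ (w : Fin hh) (T : Finset (Fin hh)), nn w.succ = ∑ v ∈ T, nn v.succ → T = {w}) ∧
  (∀ w : Fin hh, nn w.succ + 1 < nn 0) ∧ (∀ v, 3 ∣ nn v)

/-- ACT: the action of `(ℤ/3)^ℕ` -/
def SAct : Prop :=
  (∀ x : SS, act 0 x = x) ∧ (∀ γ γ' (x : SS), act (γ + γ') x = act γ (act γ' x)) ∧
  (∀ γ (x : SS), act γ x = x → γ = 0) ∧ (∀ γ, Continuous (act γ)) ∧
  (∀ j (x : SS), tt j x = act (Pi.single j 1) x) ∧
  (∀ γ n δ (x y : SS), Close n δ x y → Close n δ (act γ x) (act γ y)) ∧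
  (∀ γ w (x : SS), x ∈ FF w → act γ x ∈ FF w) ∧
  (∀ γ (x : SS), y0 (act γ x) = om ^ (γ 0).val • y0 x) ∧
  (∀ γ s, ‖chi γ s‖ = 1) ∧ (∀ s, chi 0 s = 1) ∧
  (∀ γ γ' s, chi (γ + γ') s = chi γ s * chi γ' s) ∧
  (∀ j s, chi (Pi.single j 1) s = if wt s = some j then om else 1) ∧
  (∀ w, Continuous fun x : SS => bet w (y0 x)) ∧ (∀ x : SS, ∃ w, x ∈ FF w) ∧
  (∀ w, IsClosed (FF w))

/-- UNC: the entourages `Close` -/
def SUnc : Prop :=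
  (∀ n (δ : ℝ), 0 < δ → {p : SS × SS | Close n δ p.1 p.2} ∈ 𝓤 SS) ∧
  (∀ V ∈ 𝓤 SS, ∃ (n : ℕ) (δ : ℝ), 0 < δ ∧ ∀ x y : SS, Close n δ x y → (x, y) ∈ V) ∧
  (∀ (E : Type) [NormedAddCommGroup E] (F : SS → E), Continuous F → ∀ ε : ℝ, 0 < ε →
    ∃ (n : ℕ) (δ : ℝ), 0 < δ ∧ ∀ x y : SS, Close n δ x y → ‖F x - F y‖ < ε)

/-- ORB: equivariant choice over a free action -/
def SOrb : Prop :=
  ∀ (Y : Type) [Nonempty Y] (aY : (ℕ → ZMod 3) → Y → Y), (∀ y, aY 0 y = y) →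
    (∀ γ γ' y, aY (γ + γ') y = aY γ (aY γ' y)) →
    ∀ (Z : Set SS), (∀ γ, ∀ x ∈ Z, act γ x ∈ Z) →
    ∀ Q : SS → Y → Prop, (∀ γ, ∀ x ∈ Z, ∀ y, Q x y → Q (act γ x) (aY γ y)) →
    (∀ x ∈ Z, ∃ y, Q x y) →
    ∃ r : SS → Y, ∀ x ∈ Z, Q x (r x) ∧ ∀ γ, r (act γ x) = aY γ (r x)

/-- EL: the elementary operators exist and are bounded -/
def SEl : Prop :=
  ∀ (k : ℕ) (s t : JI), s ∈ JJ k → t ∈ JJ k →
    ∀ (φ : Finset ℕ → ℂ) (C : ℝ), (∀ T, ‖φ T‖ ≤ C) →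
      (∀ (ξ : HH) (v : JI), (el k s t φ ξ : JI → ℂ) v =
        if low k v = s then φ (high k v) * ξ (jn t (high k v)) else 0) ∧ ‖el k s t φ‖ ≤ C

/-- ELA: the algebra of the operators `el` -/
def SEla : Prop :=
  (∀ f g : BH, (∀ s t, mc f s t = mc g s t) → f = g) ∧
  (∀ (k : ℕ) (s t : JI), s ∈ JJ k → t ∈ JJ k →
    ∀ (φ : Finset ℕ → ℂ) (C : ℝ), (∀ T, ‖φ T‖ ≤ C) →
      (∀ u, el k s t φ (bv u) = if low k u = t then φ (high k u) • bv (jn s (high k u)) else 0) ∧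
      star (el k s t φ) = el k t s (fun T => conj (φ T)) ∧
      (∀ (t' r : JI), t' ∈ JJ k → r ∈ JJ k →
        ∀ (ψ : Finset ℕ → ℂ) (D : ℝ), (∀ T, ‖ψ T‖ ≤ D) →
          el k s t φ * el k t' r ψ = if t = t' then el k s r (fun T => φ T * ψ T) else 0) ∧
      (∀ (ψ : Finset ℕ → ℂ) (D : ℝ), (∀ T, ‖ψ T‖ ≤ D) →
        el k s t φ + el k s t ψ = el k s t (fun T => φ T + ψ T)) ∧
      (∀ c : ℂ, c • el k s t φ = el k s t (fun T => c * φ T))) ∧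
  (∀ k : ℕ, ∑ s ∈ JJ k, el k s s (fun _ => 1) = 1)

/-- DIA: the diagonal operators `UU γ`, `qq v`, `PP m` and the matrix coefficients -/
def SDia : Prop :=
  (∀ γ (ξ : HH) (v : JI), (UU γ ξ : JI → ℂ) v = chi γ v * ξ v) ∧
  (∀ v (ξ : HH) (u : JI), (qq v ξ : JI → ℂ) u = if typ u = v then ξ u else 0) ∧
  (∀ m (ξ : HH) (u : JI), (PP m ξ : JI → ℂ) u = if u ∈ JJ m then ξ u else 0) ∧
  (∀ γ, UU γ * star (UU γ) = 1 ∧ star (UU γ) * UU γ = 1) ∧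
  (∀ v, star (qq v) = qq v ∧ qq v * qq v = qq v) ∧
  (∀ m, star (PP m) = PP m ∧ PP m * PP m = PP m) ∧
  (∀ (f : BH) γ s t, mc (UU γ * f * star (UU γ)) s t = chi γ s * conj (chi γ t) * mc f s t) ∧
  (∀ (f : BH) v s t, mc (qq v * f) s t = (if typ s = v then mc f s t else 0) ∧
    mc (f * qq v) s t = (if typ t = v then mc f s t else 0)) ∧
  (∀ (f : BH) m s t, mc (PP m * f) s t = (if s ∈ JJ m then mc f s t else 0) ∧
    mc (f * PP m) s t = (if t ∈ JJ m then mc f s t else 0)) ∧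
  (∀ (f : BH) s t, mc (star f) s t = conj (mc f t s)) ∧
  (∀ (f : BH) s t, ‖mc f s t‖ ≤ ‖f‖) ∧
  (∀ (f : BH) (ξ : HH), ‖f ξ‖ ≤ ‖f‖ * ‖ξ‖) ∧
  (∀ (f g : BH) (m : ℕ) s t, s ∈ JJ m → t ∈ JJ m → PP m * f = f * PP m →
    mc (f * g) s t = ∑ r ∈ JJ m, mc f s r * mc g r t) ∧
  (∀ (f g : BH) (m : ℕ) s t, s ∈ JJ m → t ∈ JJ m → PP m * g = g * PP m →
    mc (f * g) s t = ∑ r ∈ JJ m, mc f s r * mc g r t)

/-! ## Block B: the algebra -/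

/-- GC: the functions `GG k s t h` -/
def SGc : Prop :=
  ∀ (k : ℕ) (s t : JI), s ∈ JJ k → t ∈ JJ k → ∀ (h : C(SS, ℂ)),
    (∃ C : ℝ, ∀ x T, ‖h (pt x T)‖ ≤ C) ∧ ∀ x, GG k s t h x = el k s t (fun T => h (pt x T))

/-- GA: algebra of the elements `GG` -/
def SGa : Prop :=
  ∀ (k : ℕ) (s t : JI), s ∈ JJ k → t ∈ JJ k → ∀ (h : C(SS, ℂ)),
    star (GG k s t h) = GG k t s (star h) ∧
    (∀ (t' r : JI), t' ∈ JJ k → r ∈ JJ k → ∀ h' : C(SS, ℂ),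
      GG k s t h * GG k t' r h' = if t = t' then GG k s r (h * h') else 0) ∧
    (∀ h' : C(SS, ℂ), GG k s t h + GG k s t h' = GG k s t (h + h')) ∧
    (∀ c : ℂ, c • GG k s t h = GG k s t (c • h)) ∧
    ‖GG k s t h‖ ≤ ‖h‖ ∧
    ∑ s ∈ JJ k, GG k s s 1 = 1

/-- GUP: one step of the inductive system: `a ↦ a ⊕ a(z_k)` -/
def SGup : Prop :=
  ∀ (k : ℕ) (s t : JI), s ∈ JJ k → t ∈ JJ k → ∀ (h : C(SS, ℂ)),
    GG k s t h = GG (k + 1) s t h +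
      GG (k + 1) (jn s {k}) (jn t {k}) (ContinuousMap.const SS (h (zz k)))

/-- ADM: the admissible functions -/
def SAdm : Prop :=
  (∀ s t h h', Adm s t h → Adm s t h' → Adm s t (h + h')) ∧
  (∀ s t h (c : ℂ), Adm s t h → Adm s t (c • h)) ∧
  (∀ s t h, Adm s t h → Adm t s (star h)) ∧
  (∀ s t r h h', Adm s t h → Adm t r h' → Adm s r (h * h')) ∧
  (∀ s t, Adm s t 0) ∧ (∀ s, Adm s s 1) ∧
  (∀ s t, typ s = typ t → wt s = wt t → ∀ c : ℂ, Adm s t (ContinuousMap.const SS c)) ∧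
  (∀ k, ∀ s ∈ JJ k, ∀ t ∈ JJ k, ∀ c : ℂ, Adm (jn s {k}) (jn t {k}) (ContinuousMap.const SS c))

/-- LEV: the elements of level `k`, the dense subalgebra is their union -/
def SLev : Prop :=
  (∀ k f, Lev k f → Lev (k + 1) f) ∧
  (∀ k f g, Lev k f → Lev k g → Lev k (f + g) ∧ Lev k (f * g)) ∧
  (∀ k f, Lev k f → Lev k (star f) ∧ ∀ c : ℂ, Lev k (c • f)) ∧ (∀ k, Lev k 1) ∧
  (∀ k, ∀ s ∈ JJ k, ∀ t ∈ JJ k, ∀ h, Adm s t h → Lev k (GG k s t h)) ∧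
  (∀ f, f ∈ A0 ↔ ∃ k, Lev k f)

/-- DEN: approximation of finitely many elements of `AA` at one common level -/
def SDen : Prop :=
  ∀ (ι : Type) [Finite ι] (f : ι → BB), (∀ i, f i ∈ AA) → ∀ ε : ℝ, 0 < ε → ∀ k₀ : ℕ,
    ∃ (k : ℕ) (a : ι → BB), k₀ ≤ k ∧ ∀ i, Lev k (a i) ∧ a i ∈ AA ∧ ‖a i - f i‖ < ε

/-- ENT: matrix entries of an element of level `k` -/
def SEnt : Prop :=
  (∀ k s t, s ∈ JJ k → t ∈ JJ k → ∀ (h : C(SS, ℂ)) (x : SS) (u v : JI), mc (GG k s t h x) u v =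
    if low k u = s ∧ low k v = t ∧ high k u = high k v then h (pt x (high k u)) else 0) ∧
  (∀ k f, Lev k f → ∀ m, k ≤ m → ∃ a : JI → JI → C(SS, ℂ), ∀ s ∈ JJ m, ∀ t ∈ JJ m,
    Adm s t (a s t) ∧ ∀ x, a s t x = mc (f x) s t) ∧
  (∀ k f, Lev k f → ∀ m, k ≤ m → ∀ x, PP m * f x = f x * PP m)

/-- QEQ: equivariance and pattern for all elements of `AA` -/
def SQeq : Prop :=
  (∀ f ∈ AA, ∀ γ x, f (act γ x) = UU γ * f x * star (UU γ)) ∧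
  (∀ f ∈ AA, ∀ (w : Fin hh), ∀ x ∈ FF w, qq w.succ * f x = f x * qq w.succ)

/-- dense tails -/
def SZz : Prop :=
  ∀ (k : ℕ) (O : Set SS), IsOpen O → O.Nonempty → ∃ n : ℕ, k ≤ (hh + 1) * n ∧
    ∀ v, v < hh + 1 → zz ((hh + 1) * n + v) ∈ O

/-- MU: constant matrix units between new indices, and the sphere coordinates `D_{β,β'}` -/
def SMu : Prop :=
  (∀ k, ∀ s ∈ JJ k, ∀ t ∈ JJ k, GG (k + 1) (jn s {k}) (jn t {k}) 1 ∈ AA) ∧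
  (∀ k, ∀ s ∈ JJ k, (typ s : ℕ) = k % (hh + 1) → ∃ (n : ℕ) (D : Fin n → BB),
    (∀ i, D i ∈ AA) ∧ (∀ i, GG (k + 1) (jn s {k}) (jn s {k}) 1 * D i = D i) ∧
    ∑ i, star (D i) * D i = GG (k + 1) s s 1) ∧
  (∀ k, ∀ s ∈ JJ k, GG k s s 1 ∈ AA)

/-- SIM: simplicity -/
def SSim : Prop := ∀ I : TwoSidedIdeal AA, IsClosed (I : Set AA) → I = ⊥ ∨ I = ⊤

/-- SEP: separability -/
def SSep : Prop := TopologicalSpace.SeparableSpace AA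

/-! ## Block N: nuclearity -/

/-- nuclearity in the form of the problem -/
def IsNuc (A : Type) [NonUnitalCStarAlgebra A] : Prop :=
  ∀ F : Finset A, ∀ ε : ℝ, 0 < ε →
    ∃ (m : ℕ) (φ : A →ₗ[ℂ] Matrix (Fin m) (Fin m) ℂ)
      (ψ : Matrix (Fin m) (Fin m) ℂ →ₗ[ℂ] A),
      (∀ k : ℕ, ∀ B : Fin k → Fin k → A,
        ∃ C : Fin k → Fin k → Matrix (Fin m) (Fin m) ℂ,
          ∀ i j, φ (∑ l, star (B l i) * B l j) = ∑ l, star (C l i) * C l j) ∧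
      (∀ k : ℕ, ∀ B : Fin k → Fin k → Matrix (Fin m) (Fin m) ℂ,
        ∃ C : Fin k → Fin k → A,
          ∀ i j, ψ (∑ l, star (B l i) * B l j) = ∑ l, star (C l i) * C l j) ∧
      (∀ x : A, ‖Matrix.toEuclideanCLM (𝕜 := ℂ) (φ x)‖ ≤ ‖x‖) ∧
      (∀ M : Matrix (Fin m) (Fin m) ℂ, ‖ψ M‖ ≤ ‖Matrix.toEuclideanCLM (𝕜 := ℂ) M‖) ∧
      ∀ x ∈ F, ‖ψ (φ x) - x‖ < ε

/-- NPOS: a matrix over `AA` that is pointwise a positive operator is of the form `C* C` -/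
def SNpos : Prop :=
  ∀ (k : ℕ) (p : Fin k → Fin k → AA),
    (∀ (x : SS) (ξ : Fin k → HH), ∃ r : ℝ, 0 ≤ r ∧
      ∑ i, ∑ j, inner ℂ (ξ i) ((p i j : BB) x (ξ j)) = (r : ℂ)) →
    ∃ C : Fin k → Fin k → AA, ∀ i j, p i j = ∑ l, star (C l i) * C l j

/-- NPHI: point evaluations compressed to `JJ k` -/
def SNphi : Prop :=
  ∀ (L k : ℕ) (p : Fin L → SS), ∃ (m : ℕ) (e : Fin L × JJ k ≃ Fin m)
    (φ : AA →ₗ[ℂ] Matrix (Fin m) (Fin m) ℂ),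
    (∀ (b : AA) l l' (s t : JJ k), φ b (e (l, s)) (e (l', t)) =
      if l = l' then mc ((b : BB) (p l)) s t else 0) ∧
    (∀ n : ℕ, ∀ B : Fin n → Fin n → AA, ∃ C : Fin n → Fin n → Matrix (Fin m) (Fin m) ℂ,
      ∀ i j, φ (∑ l, star (B l i) * B l j) = ∑ l, star (C l i) * C l j) ∧
    (∀ x : AA, ‖Matrix.toEuclideanCLM (𝕜 := ℂ) (φ x)‖ ≤ ‖x‖)

/-- PUN: partition of unity adapted to finitely many functions and to the sets `F_w`, with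
finite dependence -/
def SPun : Prop :=
  ∀ (ι : Type) [Finite ι] (a : ι → C(SS, ℂ)) (ε : ℝ), 0 < ε →
    (∀ i, ∃ n : ℕ, ∀ x y : SS, (∀ j < n, x j = y j) → a i x = a i y) →
    ∃ (L n : ℕ) (p : Fin L → SS) (f : Fin L → C(SS, ℝ)),
      (∀ l x, 0 ≤ f l x) ∧ (∀ x, ∑ l, f l x = 1) ∧
      (∀ l, ∀ x y : SS, (∀ j < n, x j = y j) → f l x = f l y) ∧
      (∀ l x, f l x ≠ 0 → (∀ i, ‖a i x - a i (p l)‖ < ε) ∧ ∀ w, x ∈ FF w → p l ∈ FF w)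

/-- the averaged weight: `(1/3^n) Σ_γ f(γ⁻¹x) chi γ s conj(chi γ t)` -/
def avg (n : ℕ) (f : SS → ℝ) (s t : JI) (x : SS) : ℂ :=
  (3 ^ n : ℂ)⁻¹ * ∑ g : Fin n → ZMod 3,
    (let γ : ℕ → ZMod 3 := fun j => if h : j < n then g ⟨j, h⟩ else 0
     (f (act (-γ) x) : ℂ) * chi γ s * conj (chi γ t))

/-- the coefficient function of `ψ` -/
def coef (n : ℕ) {L : ℕ} (p : Fin L → SS) (f : Fin L → C(SS, ℝ)) (l : Fin L) (s t : JI)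
    (x : SS) : ℂ :=
  open Classical in
  if ∀ w : Fin hh, p l ∈ FF w → (typ s = w.succ ↔ typ t = w.succ) then avg n (f l) s t x else 0

/-- NADM: the coefficient functions are admissible -/
def SNadm : Prop :=
  ∀ (L k n : ℕ) (p : Fin L → SS) (f : Fin L → C(SS, ℝ)), k < n →
    (∀ l, ∀ x y : SS, (∀ j < n, x j = y j) → f l x = f l y) →
    (∀ l x, f l x ≠ 0 → ∀ w, x ∈ FF w → p l ∈ FF w) →
    ∀ l, ∀ s ∈ JJ k, ∀ t ∈ JJ k, ∃ h : C(SS, ℂ), Adm s t h ∧ ∀ x, h x = coef n p f l s t x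

/-- NPSI: the map `ψ` -/
def SNpsi : Prop :=
  ∀ (L k n m : ℕ) (e : Fin L × JJ k ≃ Fin m) (p : Fin L → SS) (f : Fin L → C(SS, ℝ)), k < n →
    (∀ l x, 0 ≤ f l x) → (∀ x, ∑ l, f l x = 1) →
    (∀ l, ∀ x y : SS, (∀ j < n, x j = y j) → f l x = f l y) →
    (∀ l x, f l x ≠ 0 → ∀ w, x ∈ FF w → p l ∈ FF w) →
    ∃ ψ : Matrix (Fin m) (Fin m) ℂ →ₗ[ℂ] AA,
      (∀ M, ∃ h : JI → JI → C(SS, ℂ),
        (∀ s t : JJ k, Adm s t (h s t) ∧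
          ∀ x, h s t x = ∑ l, M (e (l, s)) (e (l, t)) * coef n p f l s t x) ∧
        (ψ M : BB) = ∑ s ∈ JJ k, ∑ t ∈ JJ k, GG k s t (h s t)) ∧
      (∀ n' : ℕ, ∀ B : Fin n' → Fin n' → Matrix (Fin m) (Fin m) ℂ, ∃ C : Fin n' → Fin n' → AA,
        ∀ i j, ψ (∑ l, star (B l i) * B l j) = ∑ l, star (C l i) * C l j) ∧
      (∀ M : Matrix (Fin m) (Fin m) ℂ, ‖ψ M‖ ≤ ‖Matrix.toEuclideanCLM (𝕜 := ℂ) M‖)

/-- NAPP: approximation -/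
def SNuc : Prop := IsNuc AA

/-! ## Block R: the representations of an anti-automorphism -/

/-- an anti-automorphism -/
structure Anti where
  f : AA ≃ₗ[ℂ] AA
  mul : ∀ x y : AA, f (x * y) = f y * f x
  st : ∀ x : AA, f (star x) = star (f x)

open Classical in
/-- extension by zero to `BB` -/
def Anti.th (θ : Anti) (b : BB) : BB := if h : b ∈ AA then (θ.f ⟨b, h⟩ : BB) else 0

/-- TH: elementary properties -/
def STh : Prop :=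
  ∀ θ : Anti, (∀ b ∈ AA, θ.th b ∈ AA ∧ ‖θ.th b‖ = ‖b‖ ∧ θ.th (star b) = star (θ.th b) ∧
    ∀ c : ℂ, θ.th (c • b) = c • θ.th b) ∧
  (∀ b ∈ AA, ∀ b' ∈ AA, θ.th (b * b') = θ.th b' * θ.th b ∧ θ.th (b + b') = θ.th b + θ.th b') ∧
  θ.th 1 = 1

/-- matrix units `e_ij` (in `AA` if `i,j` are linked) -/
def gE (i j : II) : BB := GG 0 (i, ∅) (j, ∅) 1

/-- same block, and both or none of them is `i*` -/
def linked (i j : II) : Prop := i.1 = j.1 ∧ (i = istar ↔ j = istar)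

/-- the coordinate function `y_k` -/
def yf (k : Fin 3) : C(SS, ℂ) := ⟨fun x => y0 x k, by
  have h : Continuous fun x : SS => (x 0 : EuclideanSpace ℂ (Fin (NN 0))) :=
    continuous_subtype_val.comp (continuous_apply 0)
  exact (PiLp.continuous_apply 2 (fun _ : Fin 3 => ℂ) k).comp h⟩

/-- `y_k e_{i* j0}` -/
def gY (k : Fin 3) : BB := GG 0 (istar, ∅) (bas 0, ∅) (yf k)

/-- the function `β_w(x_0)` -/
def bf (w : Fin hh) : C(SS, ℂ) := ⟨fun x => ((bet w (y0 x) : ℝ) : ℂ), by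
  have h : Continuous fun x : SS => (x 0 : EuclideanSpace ℂ (Fin (NN 0))) :=
    continuous_subtype_val.comp (continuous_apply 0)
  have h2 : Continuous fun x : SS => bet w (y0 x) :=
    continuous_const.max (continuous_const.sub (Continuous.inner continuous_const h).norm)
  exact Complex.continuous_ofReal.comp h2⟩

/-- `β_w e_{i_w j0}` -/
def gB (w : Fin hh) : BB := GG 0 (bas w.succ, ∅) (bas 0, ∅) (bf w)

/-- `h · 1` for a function `h` -/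
def sc (h : C(SS, ℂ)) : BB := ∑ i : II, GG 0 (i, ∅) (i, ∅) h

/-- `y_k conj(y_l) 1` -/
def gH (k l : Fin 3) : BB := sc (yf k * star (yf l))

/-- index set of the generators -/
abbrev Gx : Type := (II × II) ⊕ (Fin 3 × Bool) ⊕ (Fin hh × Bool) ⊕ (Fin 3 × Fin 3)

open Classical in
/-- the generators: a self-adjoint finite family -/
def gen : Gx → BB
  | Sum.inl p => if linked p.1 p.2 then gE p.1 p.2 else 0
  | Sum.inr (Sum.inl p) => if p.2 then star (gY p.1) else gY p.1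
  | Sum.inr (Sum.inr (Sum.inl p)) => if p.2 then star (gB p.1) else gB p.1
  | Sum.inr (Sum.inr (Sum.inr p)) => gH p.1 p.2

/-- GEN: the generators and their relations -/
def SGen : Prop :=
  (∀ g, Lev 0 (gen g) ∧ gen g ∈ AA) ∧ (∀ g, ∃ g', star (gen g) = gen g') ∧
  Fintype.card Gx = cG ∧
  (∀ i j, star (gE i j) = gE j i) ∧ (∀ i j k l, gE i j * gE k l = if j = k then gE i l else 0) ∧
  ∑ i : II, gE i i = 1 ∧
  (∀ k l, star (gY l) * gY k = gH k l * gE (bas 0) (bas 0)) ∧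
  (∀ k l, gY k * star (gY l) = gH k l * gE istar istar) ∧
  (∀ k l i, gH k l * gE i i = gE i i * gH k l) ∧
  ∑ k, gH k k = 1 ∧ (∀ k l, star (gH k l) = gH l k) ∧
  (∀ k, gY k * gE (bas 0) (bas 0) = gY k ∧ gE istar istar * gY k = gY k) ∧
  (∀ w, gB w * gE (bas 0) (bas 0) = gB w ∧ gE (bas w.succ) (bas w.succ) * gB w = gB w) ∧
  (∀ w, star (gB w) * gB w = sc (bf w * bf w) * gE (bas 0) (bas 0)) ∧
  (∀ h h', sc (h * h') = sc h * sc h') ∧ (∀ h h', sc (h + h') = sc h + sc h') ∧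
  (∀ h (c : ℂ), sc (c • h) = c • sc h) ∧ (∀ h, star (sc h) = sc (star h)) ∧ sc 1 = 1 ∧
  (∀ h, ‖sc h‖ ≤ cI * ‖h‖) ∧ (∀ h i, sc h * gE i i = gE i i * sc h)

/-- the matrix `(P θ(b)(x) P)^T` -/
def RR (θ : Anti) (x : SS) (b : BB) : Matrix II II ℂ :=
  fun i j => mc (θ.th b x) (j, ∅) (i, ∅)

/-- the set `Z_0` -/
def Zst (θ : Anti) : Set SS :=
  {x | ∀ g : Gx, PP 0 * θ.th (gen g) x = θ.th (gen g) x * PP 0}

/-- the elements of `AA` whose image commutes with `P` at `x` -/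
def Cm (θ : Anti) (x : SS) (b : BB) : Prop := b ∈ AA ∧ PP 0 * θ.th b x = θ.th b x * PP 0

/-- RR0: the star homomorphism `ρ_x` -/
def SRr0 : Prop :=
  ∀ (θ : Anti) (x : SS),
    (∀ b b', Cm θ x b → Cm θ x b' → RR θ x (b * b') = RR θ x b * RR θ x b' ∧
      Cm θ x (b * b') ∧ RR θ x (b + b') = RR θ x b + RR θ x b' ∧ Cm θ x (b + b')) ∧
    (∀ b, Cm θ x b → RR θ x (star b) = star (RR θ x b) ∧ Cm θ x (star b) ∧
      ∀ c : ℂ, RR θ x (c • b) = c • RR θ x b ∧ Cm θ x (c • b)) ∧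
    (Cm θ x 1 ∧ RR θ x 1 = 1) ∧
    (∀ b ∈ AA, ∀ i j, ‖RR θ x b i j‖ ≤ ‖b‖) ∧
    (∀ (b : ℕ → BB) (b' : BB), (∀ n, Cm θ x (b n)) → Filter.Tendsto b Filter.atTop (𝓝 b') →
      Cm θ x b')

/-- RR1: dependence of `ρ_x` on `x`: continuity, equivariance, pattern; closed invariant `Z_0` -/
def SRr1 : Prop :=
  ∀ θ : Anti,
    (∀ b ∈ AA, ∀ i j, Continuous fun x => RR θ x b i j) ∧
    (∀ b ∈ AA, ∀ γ x i j, RR θ (act γ x) b i j =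
      conj (chi γ (i, ∅)) * RR θ x b i j * chi γ (j, ∅)) ∧
    IsClosed (Zst θ) ∧ (∀ γ, ∀ x ∈ Zst θ, act γ x ∈ Zst θ) ∧
    (∀ b ∈ AA, ∀ (w : Fin hh), ∀ x ∈ FF w, ∀ i j, ¬ (i.1 = w.succ ↔ j.1 = w.succ) →
      RR θ x b i j = 0)

/-- R1: all the diagonal matrix units have rank one -/
def SR1 : Prop :=
  ∀ θ : Anti, ∀ x ∈ Zst θ, ∀ i : II, Matrix.trace (RR θ x (gE i i)) = 1

/-- inner product on `II → ℂ` -/
def ip (ξ η : II → ℂ) : ℂ := ∑ i, conj (ξ i) * η i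

/-- R1b: rank one projections: unit vectors, unique up to a phase -/
def SR1b : Prop :=
  ∀ θ : Anti, ∀ x ∈ Zst θ, ∀ i : II, ∃ ξ : II → ℂ, ip ξ ξ = 1 ∧
    ∀ a b, RR θ x (gE i i) a b = ξ a * conj (ξ b)

/-- R2: the point `c` -/
def SR2 : Prop :=
  ∀ θ : Anti, ∀ x ∈ Zst θ, ∀ ξ : II → ℂ, ip ξ ξ = 1 →
    (RR θ x (gE (bas 0) (bas 0))).mulVec ξ = ξ →
    (∃ c : Fin 3 → ℂ, ∑ k, ‖c k‖ ^ 2 = 1 ∧
      ∀ k l, (RR θ x (gH k l)).mulVec ξ = (c k * conj (c l)) • ξ) ∧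
    ∀ c : EuclideanSpace ℂ (Fin 3), (∀ k l, (RR θ x (gH k l)).mulVec ξ = (c k * conj (c l)) • ξ) →
      ∀ w, ip ((RR θ x (gB w)).mulVec ξ) ((RR θ x (gB w)).mulVec ξ) = ((bet w c : ℝ) : ℂ) ^ 2

/-- R3: the pattern forces `c` to be near `x_0` -/
def SR3 : Prop :=
  ∀ θ : Anti, ∀ x ∈ Zst θ, ∀ w : Fin hh, x ∈ FF w → ∀ ξ : II → ℂ, ip ξ ξ = 1 →
    (RR θ x (gE (bas 0) (bas 0))).mulVec ξ = ξ →
    ∀ c : EuclideanSpace ℂ (Fin 3), (∀ k l, (RR θ x (gH k l)).mulVec ξ = (c k * conj (c l)) • ξ) →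
      4 / 5 ≤ ‖inner ℂ (cc w : EuclideanSpace ℂ (Fin 3)) c‖

/-- frames: unit vectors `ξ_v` in the ranges of `ρ_x(e_{bas v, bas v})` and the normalised `c` -/
def IsFrame (θ : Anti) (x : SS) (ξ : Fin (hh + 1) → II → ℂ) (c : Fin 3 → ℂ) : Prop :=
  (∀ v, ip (ξ v) (ξ v) = 1) ∧
  (∀ v, (RR θ x (gE (bas v) (bas v))).mulVec (ξ v) = ξ v) ∧
  (∀ k l, (RR θ x (gH k l)).mulVec (ξ 0) = (c k * conj (c l)) • ξ 0) ∧
  ∑ k, ‖c k‖ ^ 2 = 1 ∧ ∃ r : ℝ, 0 < r ∧ ∑ k, conj (y0 x k) * c k = (r : ℂ)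

/-- FRX: frames exist -/
def SFrx : Prop := ∀ θ : Anti, ∀ x ∈ Zst θ, ∃ ξ c, IsFrame θ x ξ c

/-- action on the vectors -/
def av (γ : ℕ → ZMod 3) (ξ : Fin (hh + 1) → II → ℂ) : Fin (hh + 1) → II → ℂ :=
  fun v i => conj (chi γ (i, ∅)) * ξ v i

/-- action on `c` -/
def ac (γ : ℕ → ZMod 3) (c : Fin 3 → ℂ) : Fin 3 → ℂ := fun k => om ^ (γ 0).val * c k

/-- the matrix `V` -/
def VV (θ : Anti) (x : SS) (ξ : Fin (hh + 1) → II → ℂ) (c : Fin 3 → ℂ) : Matrix II II ℂ :=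
  fun i j => if j = istar then ∑ k, conj (c k) * (RR θ x (gY k)).mulVec (ξ 0) i
    else (RR θ x (gE j (bas j.1))).mulVec (ξ j.1) i

/-- FRQ: equivariance of frames and of `det V` -/
def SFrq : Prop :=
  ∀ θ : Anti, ∀ x ∈ Zst θ, ∀ γ ξ c, IsFrame θ x ξ c →
    IsFrame θ (act γ x) (av γ ξ) (ac γ c) ∧
    (VV θ (act γ x) (av γ ξ) (ac γ c)).det = om ^ (γ 0).val * (VV θ x ξ c).det

/-- VUN: `V` is unitary -/
def SVun : Prop :=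
  ∀ θ : Anti, ∀ x ∈ Zst θ, ∀ ξ c, IsFrame θ x ξ c → ‖(VV θ x ξ c).det‖ = 1

/-- FRC: frames at close points -/
def SFrc : Prop :=
  ∀ (θ : Anti) (ε : ℝ), 0 < ε → ∃ (n : ℕ) (δ : ℝ), 0 < δ ∧ ∀ x ∈ Zst θ, ∀ x' ∈ Zst θ,
    Close n δ x x' → ∀ ξ c ξ' c', IsFrame θ x ξ c → IsFrame θ x' ξ' c' →
      (∀ k, ‖c' k - c k‖ < ε) ∧
      ∀ v, (∀ i, ‖ξ' v i - ip (ξ v) (ξ' v) * ξ v i‖ < ε) ∧ |‖ip (ξ v) (ξ' v)‖ - 1| < ε

/-- phase -/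
def ph (z : ℂ) : ℂ := if z = 0 then 1 else z / ‖z‖

/-- the transition function -/
def kk (ξ ξ' : Fin (hh + 1) → II → ℂ) : ℂ := ∏ v, ph (ip (ξ v) (ξ' v)) ^ (nn v / 3)

/-- VCT: `det V' ~ det V k³` for close points -/
def SVct : Prop :=
  ∀ (θ : Anti) (ε : ℝ), 0 < ε → ∃ (n : ℕ) (δ : ℝ), 0 < δ ∧ ∀ x ∈ Zst θ, ∀ x' ∈ Zst θ,
    Close n δ x x' → ∀ ξ c ξ' c', IsFrame θ x ξ c → IsFrame θ x' ξ' c' →
      ‖(VV θ x' ξ' c').det - (VV θ x ξ c).det * kk ξ ξ' ^ 3‖ < ε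

/-- KCO: `k` is a cocycle up to small errors -/
def SKco : Prop :=
  ∀ (θ : Anti) (ε : ℝ), 0 < ε → ∃ (n : ℕ) (δ : ℝ), 0 < δ ∧ ∀ x ∈ Zst θ, ∀ x' ∈ Zst θ,
    ∀ x'' ∈ Zst θ, Close n δ x x' → Close n δ x' x'' → Close n δ x x'' →
    ∀ ξ c ξ' c' ξ'' c'', IsFrame θ x ξ c → IsFrame θ x' ξ' c' → IsFrame θ x'' ξ'' c'' →
      ‖kk ξ ξ' * kk ξ' ξ'' - kk ξ ξ''‖ < ε

/-! ## Block E: the end -/

/-- ZCP: compactness: a small off-diagonal part forces closeness to `Z_0` -/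
def SZcp : Prop :=
  ∀ (θ : Anti) (n : ℕ) (δ : ℝ), 0 < δ → ∃ ε : ℝ, 0 < ε ∧ ∀ x : SS,
    (∀ (g : Gx) (i : II), ‖θ.th (gen g) x (bv (i, ∅)) - PP 0 (θ.th (gen g) x (bv (i, ∅)))‖ < ε) →
    ∃ z ∈ Zst θ, Close n δ x z

/-- TYP: functions of pure type whose near-zero set has small off-diagonal parts -/
def STyp : Prop :=
  ∀ (θ : Anti) (ε : ℝ), 0 < ε → ∃ (J : Finset ℕ) (ι : Type) (_ : Fintype ι) (ty : ι → ℕ)
    (g : ι → SS → ℂ) (η : ℝ), 0 ∈ J ∧ (∀ i, ty i ∈ J ∧ ty i ≠ 0) ∧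
    (∀ j, 2 * Fintype.card {i // ty i = j} + 1 ≤ NN j) ∧ (∀ i, Continuous (g i)) ∧
    (∀ i, ∀ j ∈ J, ∀ x, g i (tt j x) = (if j = ty i then om else 1) * g i x) ∧ 0 < η ∧
    ∀ x, (∀ i, ‖g i x‖ < η) → ∀ (g : Gx) (i : II),
      ‖θ.th (gen g) x (bv (i, ∅)) - PP 0 (θ.th (gen g) x (bv (i, ∅)))‖ < ε

/-- TOP: the topological data of an anti-automorphism -/
def STop : Prop := Anti → Nonempty (TopData NN)

end

end Pool.OPP
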