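import Mathlib
import Pool.Agent.H7.OPP.Stmts

set_option autoImplicit false

open scoped Topology ComplexConjugate Uniformity

namespace Pool.OPP

/-- module ADM -/
theorem sAdm (hAct : SAct) : SAdm := by
  have hn : ∀ γ s, chi γ s * conj (chi γ s) = 1 := by
    intro γ s
    have h := hAct.2.2.2.2.2.2.2.2.1 γ s
    rw [Complex.mul_conj, Complex.normSq_eq_norm_sq, h]; simp
  have hwt : ∀ γ s t, wt s = wt t → chi γ s = chi γ t := by
    intro γ s t h
    unfold chi
    rw [h]
  have hconst : ∀ s t, typ s = typ t → wt s = wt t → ∀ c : ℂ,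
      Adm s t (ContinuousMap.const SS c) := by
    intro s t h1 h2 c
    refine ⟨?_, ?_, 0, fun _ _ _ => rfl⟩
    · intro γ x
      rw [hwt γ s t h2, hn, one_mul]
      rfl
    · intro w x _ h
      exact absurd (by rw [h1]) h
  refine ⟨?_, ?_, ?_, ?_, ?_, ?_, hconst, ?_⟩
  · rintro s t h h' ⟨a1, a2, n, a3⟩ ⟨b1, b2, m, b3⟩
    refine ⟨?_, ?_, max n m, ?_⟩
    · intro γ x
      simp only [ContinuousMap.add_apply]
      rw [a1, b1]; ring
    · intro w x hx hw
      simp only [ContinuousMap.add_apply]
      rw [a2 w x hx hw, b2 w x hx hw, add_zero]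
    · intro x y hxy
      simp only [ContinuousMap.add_apply]
      rw [a3 x y fun j hj => hxy j (lt_of_lt_of_le hj (le_max_left _ _)),
        b3 x y fun j hj => hxy j (lt_of_lt_of_le hj (le_max_right _ _))]
  · rintro s t h c ⟨a1, a2, n, a3⟩
    refine ⟨?_, ?_, n, ?_⟩
    · intro γ x
      simp only [ContinuousMap.smul_apply, smul_eq_mul]
      rw [a1]; ring
    · intro w x hx hw
      simp only [ContinuousMap.smul_apply, smul_eq_mul]
      rw [a2 w x hx hw, mul_zero]
    · intro x y hxy
      simp only [ContinuousMap.smul_apply, smul_eq_mul]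
      rw [a3 x y hxy]
  · rintro s t h ⟨a1, a2, n, a3⟩
    refine ⟨?_, ?_, n, ?_⟩
    · intro γ x
      show conj (h (act γ x)) = _ * conj (h x)
      rw [a1, map_mul, map_mul, Complex.conj_conj]; ring
    · intro w x hx hw
      show conj (h x) = 0
      rw [a2 w x hx fun h' => hw ⟨h'.2, h'.1⟩, map_zero]
    · intro x y hxy
      show conj (h x) = conj (h y)
      rw [a3 x y hxy]
  · rintro s t r h h' ⟨a1, a2, n, a3⟩ ⟨b1, b2, m, b3⟩
    refine ⟨?_, ?_, max n m, ?_⟩
    · intro γ x
      simp only [ContinuousMap.mul_apply]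
      rw [a1, b1]
      calc chi γ s * conj (chi γ t) * h x * (chi γ t * conj (chi γ r) * h' x) =
          (chi γ t * conj (chi γ t)) * (chi γ s * conj (chi γ r) * (h x * h' x)) := by ring
        _ = _ := by rw [hn, one_mul]
    · intro w x hx hw
      simp only [ContinuousMap.mul_apply]
      by_cases h1 : typ s = w.succ ↔ typ t = w.succ
      · rw [b2 w x hx fun h2 => hw (h1.trans h2), mul_zero]
      · rw [a2 w x hx h1, zero_mul]
    · intro x y hxy
      simp only [ContinuousMap.mul_apply]
      rw [a3 x y fun j hj => hxy j (lt_of_lt_of_le hj (le_max_left _ _)),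
        b3 x y fun j hj => hxy j (lt_of_lt_of_le hj (le_max_right _ _))]
  · intro s t
    refine ⟨?_, ?_, 0, fun _ _ _ => rfl⟩
    · intro γ x; simp
    · intro w x _ _; rfl
  · intro s
    exact hconst s s rfl rfl 1
  · intro k s hs t ht c
    have hsup : ∀ s ∈ JJ k, (jn s {k}).2.sup id = k := by
      intro s hs
      simp only [JJ, Finset.mem_product, Finset.mem_univ, true_and, Finset.mem_powerset] at hs
      apply le_antisymm
      · apply Finset.sup_le
        intro i hi
        unfold jn at hi
        simp only [Finset.mem_union, Finset.mem_singleton] at hi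
        rcases hi with hi | hi
        · exact (Finset.mem_range.1 (hs hi)).le
        · exact hi.le
      · exact Finset.le_sup (f := id) (by unfold jn; simp)
    have hne : ∀ s : JI, (jn s {k}).2.Nonempty := by
      intro s; exact ⟨k, by unfold jn; simp⟩
    apply hconst
    · unfold typ
      rw [if_pos (hne s), if_pos (hne t), hsup s hs, hsup t ht]
    · unfold wt
      rw [if_pos (hne s), if_pos (hne t), hsup s hs, hsup t ht]

end Pool.OPP
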