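import Mathlib
import Pool.Agent.H7.OPP.Stmts

/-!
# OPP: assembly of the final statement
-/

set_option autoImplicit false

namespace Pool.OPP

theorem one_le_NN (j : ℕ) : 1 ≤ NN j := NN_pos j

theorem no_anti (hTop : STop) (hBr : BridgeStmt) (hTT : TTStmt) : ¬ Nonempty Anti := by
  rintro ⟨θ⟩
  obtain ⟨D⟩ := hTop θ
  exact hBr hTT NN one_le_NN (le_of_eq NN_zero.symm) D

theorem fin_opp (hSep : SSep) (hSim : SSim) (hNuc : SNuc) (hTop : STop) (hBr : BridgeStmt)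
    (hTT : TTStmt) :
    ∃ (A : Type) (_ : NonUnitalCStarAlgebra A),
      Nontrivial A ∧
      (∀ I : TwoSidedIdeal A, IsClosed (I : Set A) → I = ⊥ ∨ I = ⊤) ∧
      TopologicalSpace.SeparableSpace A ∧
      (∀ F : Finset A, ∀ ε : ℝ, 0 < ε →
        ∃ (m : ℕ) (φ : A →ₗ[ℂ] Matrix (Fin m) (Fin m) ℂ)
          (ψ : Matrix (Fin m) (Fin m) ℂ →ₗ[ℂ] A),
          (∀ k : ℕ, ∀ B : Fin k → Fin k → A,
            ∃ C : Fin k → Fin k → Matrix (Fin m) (Fin m) ℂ,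
              ∀ i j, φ (∑ l, star (B l i) * B l j) = ∑ l, star (C l i) * C l j) ∧
          (∀ k : ℕ, ∀ B : Fin k → Fin k → Matrix (Fin m) (Fin m) ℂ,
            ∃ C : Fin k → Fin k → A,
              ∀ i j, ψ (∑ l, star (B l i) * B l j) = ∑ l, star (C l i) * C l j) ∧
          (∀ x : A, ‖Matrix.toEuclideanCLM (𝕜 := ℂ) (φ x)‖ ≤ ‖x‖) ∧
          (∀ M : Matrix (Fin m) (Fin m) ℂ, ‖ψ M‖ ≤ ‖Matrix.toEuclideanCLM (𝕜 := ℂ) M‖) ∧
          ∀ x ∈ F, ‖ψ (φ x) - x‖ < ε) ∧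
      ¬ ∃ f : A ≃ₗ[ℂ] A, (∀ x y : A, f (x * y) = f y * f x) ∧ ∀ x : A, f (star x) = star (f x) := by
  refine ⟨AA, (inferInstance : NonUnitalCStarAlgebra AA), ?_, hSim, hSep, hNuc, ?_⟩
  · have : Nontrivial HH := by
      refine ⟨⟨bv (istar, ∅), 0, fun h => ?_⟩⟩
      have := congrArg (fun ξ : HH => (ξ : JI → ℂ) (istar, ∅)) h
      simp [bv] at this
    infer_instance
  · rintro ⟨f, h1, h2⟩
    exact no_anti hTop hBr hTT ⟨⟨f, h1, h2⟩⟩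

end Pool.OPP
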