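import Mathlib
import Pool.Agent.H7.OPP.Stmts

set_option autoImplicit false

open scoped Topology ComplexConjugate Uniformity

namespace Pool.OPP

theorem GUP_mem (k : ℕ) (s : JI) : s ∈ JJ k ↔ ∀ i ∈ s.2, i < k := by
  simp only [JJ, Finset.mem_product, Finset.mem_univ, true_and, Finset.mem_powerset,
    Finset.subset_iff, Finset.mem_range]

theorem GUP_val (hEl : SEl) (hGc : SGc) (k : ℕ) (s t : JI) (hs : s ∈ JJ k) (ht : t ∈ JJ k)
    (h : C(SS, ℂ)) (x : SS) (ξ : HH) (v : JI) :
    (GG k s t h x ξ : JI → ℂ) v =
      if low k v = s then h (pt x (high k v)) * ξ (jn t (high k v)) else 0 := by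
  obtain ⟨⟨C, hC⟩, h2⟩ := hGc k s t hs ht h
  rw [h2 x]
  exact (hEl k s t hs ht _ C (hC x)).1 ξ v

/-- module GUP -/
theorem sGup (hEl : SEl) (hGc : SGc) : SGup := by
  classical
  intro k s t hs ht h
  have hs' := (GUP_mem k s).1 hs
  have ht' := (GUP_mem k t).1 ht
  have hup : ∀ s ∈ JJ k, s ∈ JJ (k + 1) := by
    intro s hs
    rw [GUP_mem] at hs ⊢
    intro i hi
    have := hs i hi
    omega
  have hjn : ∀ s ∈ JJ k, jn s {k} ∈ JJ (k + 1) := by
    intro s hs
    rw [GUP_mem] at hs ⊢
    intro i hi
    unfold jn at hi
    simp only [Finset.mem_union, Finset.mem_singleton] at hi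
    rcases hi with hi | hi
    · have := hs i hi; omega
    · omega
  ext1 x
  ext1 ξ
  ext v
  have e0 : ((GG (k + 1) s t h + GG (k + 1) (jn s {k}) (jn t {k})
      (ContinuousMap.const SS (h (zz k)))) x ξ : JI → ℂ) v =
      (GG (k + 1) s t h x ξ : JI → ℂ) v + (GG (k + 1) (jn s {k}) (jn t {k})
      (ContinuousMap.const SS (h (zz k))) x ξ : JI → ℂ) v := rfl
  rw [e0, GUP_val hEl hGc k s t hs ht, GUP_val hEl hGc (k + 1) s t (hup s hs) (hup t ht),
    GUP_val hEl hGc (k + 1) _ _ (hjn s hs) (hjn t ht)]
  by_cases hk : k ∈ v.2
  · have h1 : ¬ low (k + 1) v = s := by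
      intro h1
      have : k ∈ (low (k + 1) v).2 := by
        unfold low; simp [hk]
      rw [h1] at this
      exact absurd (hs' k this) (lt_irrefl _)
    have h2 : low (k + 1) v = jn s {k} ↔ low k v = s := by
      constructor
      · intro h2
        have h3 := congrArg Prod.fst h2
        have h4 := congrArg Prod.snd h2
        refine Prod.ext h3 ?_
        ext i
        have h5 : i ∈ (low (k + 1) v).2 ↔ i ∈ (jn s {k}).2 := by rw [h4]
        unfold low jn at h5
        simp only [Finset.mem_filter, Finset.mem_union, Finset.mem_singleton] at h5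
        show i ∈ v.2.filter (fun i => i < k) ↔ _
        rw [Finset.mem_filter]
        constructor
        · rintro ⟨h6, h7⟩
          rcases h5.1 ⟨h6, by omega⟩ with h8 | h8
          · exact h8
          · omega
        · intro h6
          have h7 := hs' i h6
          have h8 := h5.2 (Or.inl h6)
          exact ⟨h8.1, h7⟩
      · intro h2
        rw [← h2]
        unfold low jn
        refine Prod.ext rfl ?_
        ext i
        simp only [Finset.mem_filter, Finset.mem_union, Finset.mem_singleton]
        constructor
        · rintro ⟨h3, h4⟩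
          by_cases h5 : i = k
          · right; exact h5
          · left; exact ⟨h3, by omega⟩
        · rintro (⟨h3, h4⟩ | h3)
          · exact ⟨h3, by omega⟩
          · rw [h3]; exact ⟨hk, by omega⟩
    have h3 : (high k v).Nonempty := ⟨k, by unfold high; simp [hk]⟩
    have h4 : (high k v).min' h3 = k := by
      apply le_antisymm
      · exact Finset.min'_le _ _ (by unfold high; simp [hk])
      · apply Finset.le_min'
        intro i hi
        unfold high at hi
        exact (Finset.mem_filter.1 hi).2
    have h5 : pt x (high k v) = zz k := by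
      unfold pt
      rw [dif_pos h3, h4]
    have h6 : jn t (high k v) = jn (jn t {k}) (high (k + 1) v) := by
      unfold jn high
      refine Prod.ext rfl ?_
      ext i
      simp only [Finset.mem_filter, Finset.mem_union, Finset.mem_singleton]
      constructor
      · rintro (h7 | ⟨h7, h8⟩)
        · left; left; exact h7
        · by_cases h9 : i = k
          · left; right; exact h9
          · right; exact ⟨h7, by omega⟩
      · rintro ((h7 | h7) | ⟨h7, h8⟩)
        · left; exact h7
        · right; rw [h7]; exact ⟨hk, le_rfl⟩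
        · right; exact ⟨h7, by omega⟩
    rw [if_neg h1, zero_add]
    by_cases h7 : low k v = s
    · rw [if_pos h7, if_pos (h2.2 h7), h5, h6]
      rfl
    · rw [if_neg h7, if_neg fun h8 => h7 (h2.1 h8)]
  · have h1 : low (k + 1) v = low k v := by
      unfold low
      refine Prod.ext rfl ?_
      ext i
      simp only [Finset.mem_filter]
      constructor
      · rintro ⟨h2, h3⟩
        have : i ≠ k := fun h4 => hk (h4 ▸ h2)
        exact ⟨h2, by omega⟩
      · rintro ⟨h2, h3⟩
        exact ⟨h2, by omega⟩
    have h2 : high (k + 1) v = high k v := by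
      unfold high
      ext i
      simp only [Finset.mem_filter]
      constructor
      · rintro ⟨h2, h3⟩
        exact ⟨h2, by omega⟩
      · rintro ⟨h2, h3⟩
        have : i ≠ k := fun h4 => hk (h4 ▸ h2)
        exact ⟨h2, by omega⟩
    have h3 : ¬ low k v = jn s {k} := by
      intro h3
      have h4 : k ∈ (low k v).2 := by rw [h3]; unfold jn; simp
      unfold low at h4
      simp at h4
    rw [h1, h2, if_neg h3, add_zero]

end Pool.OPP
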