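import Mathlib
import Pool.Agent.H7.OPP.Stmts

set_option autoImplicit false

open scoped Topology ComplexConjugate Uniformity

namespace Pool.OPP

/-- extension by zero -/
def NADM_ex (n : ℕ) (g : Fin n → ZMod 3) : ℕ → ZMod 3 :=
  fun j => if h : j < n then g ⟨j, h⟩ else 0

theorem NADM_avg (n : ℕ) (f : SS → ℝ) (s t : JI) (x : SS) :
    avg n f s t x = (3 ^ n : ℂ)⁻¹ * ∑ g : Fin n → ZMod 3,
      (f (act (-(NADM_ex n g)) x) : ℂ) * chi (NADM_ex n g) s * conj (chi (NADM_ex n g) t) := rfl

theorem NADM_act (γ γ' : ℕ → ZMod 3) (x y : SS) (n : ℕ) (h : ∀ j < n, γ j = γ' j)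
    (hxy : ∀ j < n, x j = y j) : ∀ j < n, act γ x j = act γ' y j := by
  intro j hj
  unfold act
  apply Subtype.ext
  show om ^ (γ j).val • (x j : EuclideanSpace ℂ (Fin (NN j))) =
    om ^ (γ' j).val • (y j : EuclideanSpace ℂ (Fin (NN j)))
  rw [h j hj, hxy j hj]

theorem NADM_chi (γ γ' : ℕ → ZMod 3) (n k : ℕ) (hk : k < n) (h : ∀ j < n, γ j = γ' j) (s : JI)
    (hs : s ∈ JJ k) : chi γ s = chi γ' s := by
  have hw : ∀ j, wt s = some j → j < n := by
    intro j hj
    unfold wt at hj
    split_ifs at hj with h1 h2
    · have h3 := Option.some.inj hj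
      obtain ⟨a, ha, ha2⟩ := Finset.exists_mem_eq_sup s.2 h1 id
      simp only [JJ, Finset.mem_product, Finset.mem_univ, true_and, Finset.mem_powerset] at hs
      have h4 := Finset.mem_range.1 (hs ha)
      rw [ha2] at h3
      simp only [id] at h3
      omega
    · have h3 := Option.some.inj hj
      omega
  unfold chi
  cases h1 : wt s with
  | none => rfl
  | some j =>
    show om ^ (γ j).val = om ^ (γ' j).val
    rw [h j (hw j h1)]

/-- module NADM -/
theorem sNadm (hAct : SAct) : SNadm := by
  classical
  intro L k n p f hkn hdep hFF l s hs t ht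
  by_cases hc : ∀ w : Fin hh, p l ∈ FF w → (typ s = w.succ ↔ typ t = w.succ)
  · have hcont : Continuous fun x => avg n (f l) s t x := by
      simp only [NADM_avg]
      refine continuous_const.mul (continuous_finsetSum _ fun g _ => ?_)
      refine ((Complex.continuous_ofReal.comp ((f l).continuous.comp
        (hAct.2.2.2.1 _))).mul continuous_const).mul continuous_const
    refine ⟨⟨fun x => avg n (f l) s t x, hcont⟩, ⟨?_, ?_, n, ?_⟩, ?_⟩
    · intro γ x
      show avg n (f l) s t (act γ x) = chi γ s * conj (chi γ t) * avg n (f l) s t x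
      rw [NADM_avg, NADM_avg]
      let g' : Fin n → ZMod 3 := fun j => γ j
      have h1 : ∀ g : Fin n → ZMod 3,
          (f l (act (-(NADM_ex n g)) (act γ x)) : ℂ) * chi (NADM_ex n g) s *
            conj (chi (NADM_ex n g) t) =
          chi γ s * conj (chi γ t) * ((f l (act (-(NADM_ex n (g - g'))) x) : ℂ) *
            chi (NADM_ex n (g - g')) s * conj (chi (NADM_ex n (g - g')) t)) := by
        intro g
        have h2 : f l (act (-(NADM_ex n g)) (act γ x)) = f l (act (-(NADM_ex n (g - g'))) x) := by
          rw [← hAct.2.1]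
          apply hdep
          apply NADM_act
          · intro j hj
            simp only [Pi.add_apply, Pi.neg_apply, NADM_ex, dif_pos hj, Pi.sub_apply, g']
            ring
          · intro j _; rfl
        have h3 : ∀ u ∈ JJ k, chi (NADM_ex n g) u = chi (NADM_ex n (g - g')) u * chi γ u := by
          intro u hu
          rw [← hAct.2.2.2.2.2.2.2.2.2.2.1]
          apply NADM_chi _ _ n k hkn _ u hu
          intro j hj
          simp only [Pi.add_apply, NADM_ex, dif_pos hj, Pi.sub_apply, g']
          ring
        rw [h2, h3 s hs, h3 t ht, map_mul]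
        ring
      rw [Finset.sum_congr rfl fun g _ => h1 g, ← Finset.mul_sum]
      have h4 : ∑ g : Fin n → ZMod 3, ((f l (act (-(NADM_ex n (g - g'))) x) : ℂ) *
            chi (NADM_ex n (g - g')) s * conj (chi (NADM_ex n (g - g')) t)) =
          ∑ g : Fin n → ZMod 3, ((f l (act (-(NADM_ex n g)) x) : ℂ) *
            chi (NADM_ex n g) s * conj (chi (NADM_ex n g) t)) :=
        Equiv.sum_comp (Equiv.subRight g') (fun g : Fin n → ZMod 3 =>
          ((f l (act (-(NADM_ex n g)) x) : ℂ) *
            chi (NADM_ex n g) s * conj (chi (NADM_ex n g) t)))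
      rw [h4]
      ring
    · intro w x hx hw
      show avg n (f l) s t x = 0
      have hpl : p l ∉ FF w := fun h => hw (hc w h)
      rw [NADM_avg, Finset.sum_eq_zero, mul_zero]
      intro g _
      have : f l (act (-(NADM_ex n g)) x) = 0 := by
        by_contra h
        exact hpl (hFF l _ h w (hAct.2.2.2.2.2.2.1 _ w x hx))
      rw [this]; simp
    · intro x y hxy
      show avg n (f l) s t x = avg n (f l) s t y
      rw [NADM_avg, NADM_avg]
      congr 1
      refine Finset.sum_congr rfl fun g _ => ?_
      have : f l (act (-(NADM_ex n g)) x) = f l (act (-(NADM_ex n g)) y) :=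
        hdep l _ _ (NADM_act _ _ x y n (fun _ _ => rfl) hxy)
      rw [this]
    · intro x
      show avg n (f l) s t x = coef n p f l s t x
      unfold coef
      rw [if_pos hc]
  · refine ⟨0, ⟨?_, ?_, 0, fun _ _ _ => rfl⟩, ?_⟩
    · intro γ x; simp
    · intro w x _ _; rfl
    · intro x
      unfold coef
      rw [if_neg hc]; rfl

end Pool.OPP
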