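import Mathlib
import Pool.Agent.H7.OPP.Stmts

set_option autoImplicit false

open scoped Topology ComplexConjugate Uniformity

namespace Pool.OPP

/-- partial trace over the block `v` -/
noncomputable def R3_tq (v : Fin (hh + 1)) (A : Matrix II II ℂ) : ℂ :=
  ∑ a : II, if a.1 = v then A a a else 0

/-- pattern matrices -/
def R3_pat (v : Fin (hh + 1)) (A : Matrix II II ℂ) : Prop :=
  ∀ i j : II, ¬ (i.1 = v ↔ j.1 = v) → A i j = 0

theorem R3_tq_comm (v : Fin (hh + 1)) (A B : Matrix II II ℂ) (hA : R3_pat v A)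
    (hB : R3_pat v B) : R3_tq v (A * B) = R3_tq v (B * A) := by
  have key : ∀ A B : Matrix II II ℂ, R3_pat v A →
      R3_tq v (A * B) = ∑ a : II, ∑ b : II, if a.1 = v ∧ b.1 = v then A a b * B b a else 0 := by
    intro A B hA
    unfold R3_tq
    refine Finset.sum_congr rfl fun a _ => ?_
    by_cases ha : a.1 = v
    · rw [if_pos ha, Matrix.mul_apply]
      refine Finset.sum_congr rfl fun b _ => ?_
      by_cases hb : b.1 = v
      · rw [if_pos ⟨ha, hb⟩]
      · rw [if_neg (fun h => hb h.2), hA a b (by simp [ha, hb]), zero_mul]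
    · rw [if_neg ha]
      symm
      refine Finset.sum_eq_zero fun b _ => if_neg fun h => ha h.1
  rw [key A B hA, key B A hB, Finset.sum_comm]
  refine Finset.sum_congr rfl fun a _ => Finset.sum_congr rfl fun b _ => ?_
  by_cases h : a.1 = v ∧ b.1 = v
  · rw [if_pos ⟨h.2, h.1⟩, if_pos h, mul_comm]
  · rw [if_neg h, if_neg fun h' => h ⟨h'.2, h'.1⟩]

theorem R3_tq_add (v : Fin (hh + 1)) (A B : Matrix II II ℂ) :
    R3_tq v (A + B) = R3_tq v A + R3_tq v B := by
  unfold R3_tq
  rw [← Finset.sum_add_distrib]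
  refine Finset.sum_congr rfl fun a _ => ?_
  split_ifs <;> simp

theorem R3_tq_sum {ι : Type} (s : Finset ι) (v : Fin (hh + 1)) (A : ι → Matrix II II ℂ) :
    R3_tq v (∑ i ∈ s, A i) = ∑ i ∈ s, R3_tq v (A i) := by
  classical
  induction s using Finset.induction_on with
  | empty => simp [R3_tq]
  | insert a s ha ih => rw [Finset.sum_insert ha, Finset.sum_insert ha, R3_tq_add, ih]

theorem R3_tq_one (v : Fin (hh + 1)) : R3_tq v 1 = (nn v : ℂ) := by
  unfold R3_tq
  simp only [Matrix.one_apply_eq]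
  rw [Fintype.sum_sigma]
  rw [Finset.sum_eq_single v]
  · simp
  · intro b _ hb
    simp [hb]
  · simp

/-- a rank one projection with pattern is supported in the block or outside -/
theorem R3_dich (v : Fin (hh + 1)) (ζ : II → ℂ) (h1 : ip ζ ζ = 1)
    (hp : ∀ i j : II, ¬ (i.1 = v ↔ j.1 = v) → ζ i * conj (ζ j) = 0) :
    ((∀ a : II, a.1 = v → ζ a = 0) ∧ R3_tq v (fun a b => ζ a * conj (ζ b)) = 0) ∨
    ((∀ a : II, a.1 ≠ v → ζ a = 0) ∧ R3_tq v (fun a b => ζ a * conj (ζ b)) = 1) := by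
  by_cases h : ∀ a : II, a.1 = v → ζ a = 0
  · left
    refine ⟨h, ?_⟩
    unfold R3_tq
    refine Finset.sum_eq_zero fun a _ => ?_
    split_ifs with ha
    · show ζ a * conj (ζ a) = 0
      rw [h a ha, zero_mul]
    · rfl
  · right
    push Not at h
    obtain ⟨a, ha, hz⟩ := h
    have h2 : ∀ b : II, b.1 ≠ v → ζ b = 0 := by
      intro b hb
      have := hp a b (by simp [ha, hb])
      rcases mul_eq_zero.1 this with h3 | h3
      · exact absurd h3 hz
      · simpa using h3
    refine ⟨h2, ?_⟩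
    unfold R3_tq
    rw [← h1]
    unfold ip
    refine Finset.sum_congr rfl fun b _ => ?_
    split_ifs with hb
    · show ζ b * conj (ζ b) = conj (ζ b) * ζ b
      ring
    · rw [h2 b hb]; simp

theorem R3_cm (hGen : SGen) (θ : Anti) (x : SS) (hx : x ∈ Zst θ) (g : Gx) :
    Cm θ x (gen g) := ⟨(hGen.1 g).2, hx g⟩

theorem R3_cmE (hGen : SGen) (θ : Anti) (x : SS) (hx : x ∈ Zst θ) (i j : II)
    (h : linked i j) : Cm θ x (gE i j) := by
  have := R3_cm hGen θ x hx (Sum.inl (i, j))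
  simpa [gen, h] using this

theorem R3_cmY (hGen : SGen) (θ : Anti) (x : SS) (hx : x ∈ Zst θ) (k : Fin 3) :
    Cm θ x (gY k) := by
  have := R3_cm hGen θ x hx (Sum.inr (Sum.inl (k, false)))
  simpa [gen] using this

theorem R3_cmB (hGen : SGen) (θ : Anti) (x : SS) (hx : x ∈ Zst θ) (w : Fin hh) :
    Cm θ x (gB w) := by
  have := R3_cm hGen θ x hx (Sum.inr (Sum.inr (Sum.inl (w, false))))
  simpa [gen] using this

theorem R3_cmH (hGen : SGen) (θ : Anti) (x : SS) (hx : x ∈ Zst θ) (k l : Fin 3) :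
    Cm θ x (gH k l) := by
  have := R3_cm hGen θ x hx (Sum.inr (Sum.inr (Sum.inr (k, l))))
  simpa [gen] using this

theorem R3_sum (hR : SRr0) (θ : Anti) (x : SS) {ι : Type} (s : Finset ι) (b : ι → BB)
    (hb : ∀ i ∈ s, Cm θ x (b i)) :
    Cm θ x (∑ i ∈ s, b i) ∧ RR θ x (∑ i ∈ s, b i) = ∑ i ∈ s, RR θ x (b i) := by
  classical
  induction s using Finset.induction_on with
  | empty =>
    have h0 := (hR θ x).2.1 1 (hR θ x).2.2.1.1
    have h1 := h0.2.2 0
    rw [zero_smul, zero_smul] at h1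
    exact ⟨by simpa using h1.2, by simpa using h1.1⟩
  | insert a s ha ih =>
    have h1 := ih fun i hi => hb i (Finset.mem_insert_of_mem hi)
    have h2 := (hR θ x).1 (b a) (∑ i ∈ s, b i) (hb a (Finset.mem_insert_self _ _)) h1.1
    rw [Finset.sum_insert ha, Finset.sum_insert ha]
    exact ⟨h2.2.2.2, by rw [h2.2.2.1, h1.2]⟩

theorem R3_linked_self (i : II) : linked i i := ⟨rfl, Iff.rfl⟩

theorem R3_linked_bas (i : II) (hi : i ≠ istar) : linked i (bas i.1) :=
  ⟨rfl, ⟨fun h => absurd h hi, fun h => absurd h (bas_ne_istar _)⟩⟩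

theorem R3_linked_symm (i j : II) (h : linked i j) : linked j i := ⟨h.1.symm, h.2.symm⟩

/-- module R3 -/
theorem sR3 (hNum : SNum) (hR1b : SR1b) (hR2 : SR2) (hR0 : SRr0) (hRr1 : SRr1) (hGen : SGen) :
    SR3 := by
  intro θ x hx w hxw ξ hξ hξE c hc
  have hpat : ∀ b ∈ AA, R3_pat w.succ (RR θ x b) := fun b hb i j hij =>
    (hRr1 θ).2.2.2.2 b hb w x hxw i j hij
  choose ζ hζ1 hζ2 using hR1b θ x hx
  have hE : ∀ i, RR θ x (gE i i) = fun a b => ζ i a * conj (ζ i b) := by
    intro i; ext a b; exact hζ2 i a b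
  have hCE : ∀ i, Cm θ x (gE i i) := fun i => R3_cmE hGen θ x hx i i (R3_linked_self i)
  have hd : ∀ i, ((∀ a : II, a.1 = w.succ → ζ i a = 0) ∧ R3_tq w.succ (RR θ x (gE i i)) = 0) ∨
      ((∀ a : II, a.1 ≠ w.succ → ζ i a = 0) ∧ R3_tq w.succ (RR θ x (gE i i)) = 1) := by
    intro i
    have := R3_dich w.succ (ζ i) (hζ1 i) (fun a b hab => by
      rw [← hζ2 i a b]; exact hpat _ (hCE i).1 a b hab)
    rw [hE i]
    exact this
  -- the value depends only on the block
  have hblk : ∀ i j, linked i j →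
      R3_tq w.succ (RR θ x (gE i i)) = R3_tq w.succ (RR θ x (gE j j)) := by
    intro i j hij
    have c1 := R3_cmE hGen θ x hx i j hij
    have c2 := R3_cmE hGen θ x hx j i (R3_linked_symm i j hij)
    have e1 : gE i j * gE j i = gE i i := by rw [hGen.2.2.2.2.1, if_pos rfl]
    have e2 : gE j i * gE i j = gE j j := by rw [hGen.2.2.2.2.1, if_pos rfl]
    rw [← e1, ← e2, ((hR0 θ x).1 _ _ c1 c2).1, ((hR0 θ x).1 _ _ c2 c1).1]
    exact R3_tq_comm _ _ _ (hpat _ c1.1) (hpat _ c2.1)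
  have hstar : R3_tq w.succ (RR θ x (gE istar istar)) =
      R3_tq w.succ (RR θ x (gE (bas 0) (bas 0))) := by
    have cY := fun k => R3_cmY hGen θ x hx k
    have cYs : ∀ k, Cm θ x (star (gY k)) := fun k => ((hR0 θ x).2.1 _ (cY k)).2.1
    have e1 : ∑ k, star (gY k) * gY k = gE (bas 0) (bas 0) := by
      have : ∀ k, star (gY k) * gY k = gH k k * gE (bas 0) (bas 0) := fun k =>
        hGen.2.2.2.2.2.2.1 k k
      simp only [this]
      rw [← Finset.sum_mul, hGen.2.2.2.2.2.2.2.2.2.1, one_mul]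
    have e2 : ∑ k, gY k * star (gY k) = gE istar istar := by
      have : ∀ k, gY k * star (gY k) = gH k k * gE istar istar := fun k =>
        hGen.2.2.2.2.2.2.2.1 k k
      simp only [this]
      rw [← Finset.sum_mul, hGen.2.2.2.2.2.2.2.2.2.1, one_mul]
    rw [← e1, ← e2]
    rw [(R3_sum hR0 θ x Finset.univ _ fun k _ => ((hR0 θ x).1 _ _ (cYs k) (cY k)).2.1).2,
      (R3_sum hR0 θ x Finset.univ _ fun k _ => ((hR0 θ x).1 _ _ (cY k) (cYs k)).2.1).2,
      R3_tq_sum, R3_tq_sum]
    refine Finset.sum_congr rfl fun k _ => ?_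
    rw [((hR0 θ x).1 _ _ (cYs k) (cY k)).1, ((hR0 θ x).1 _ _ (cY k) (cYs k)).1]
    exact R3_tq_comm _ _ _ (hpat _ (cY k).1) (hpat _ (cYs k).1)
  have hall : ∀ i : II, R3_tq w.succ (RR θ x (gE i i)) =
      R3_tq w.succ (RR θ x (gE (bas i.1) (bas i.1))) := by
    intro i
    by_cases hi : i = istar
    · subst hi; exact hstar
    · exact hblk _ _ (R3_linked_bas i hi)
  -- the sum
  have hsum : (nn w.succ : ℂ) = ∑ v, (nn v : ℂ) * R3_tq w.succ (RR θ x (gE (bas v) (bas v))) := by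
    rw [← R3_tq_one, ← (hR0 θ x).2.2.1.2, ← hGen.2.2.2.2.2.1,
      (R3_sum hR0 θ x Finset.univ _ fun i _ => hCE i).2, R3_tq_sum, Fintype.sum_sigma]
    refine Finset.sum_congr rfl fun v _ => ?_
    rw [Finset.sum_congr rfl fun y _ => hall ⟨v, y⟩]
    simp
  -- integer values
  let τ : Fin (hh + 1) → ℕ := fun v =>
    open Classical in if R3_tq w.succ (RR θ x (gE (bas v) (bas v))) = 1 then 1 else 0
  have hτ : ∀ v, R3_tq w.succ (RR θ x (gE (bas v) (bas v))) = (τ v : ℂ) := by
    intro v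
    show _ = (((open Classical in if R3_tq w.succ (RR θ x (gE (bas v) (bas v))) = 1 then 1
      else 0 : ℕ)) : ℂ)
    rcases hd (bas v) with h | h
    · rw [h.2]; simp
    · rw [h.2]; simp
  have hsum' : nn w.succ = ∑ v, nn v * τ v := by
    have : (nn w.succ : ℂ) = ((∑ v, nn v * τ v : ℕ) : ℂ) := by
      rw [hsum]; push_cast
      exact Finset.sum_congr rfl fun v _ => by rw [hτ v]
    exact_mod_cast this
  have hτ01 : ∀ v, τ v = 0 ∨ τ v = 1 := by
    intro v
    show (open Classical in if _ = (1 : ℂ) then 1 else 0 : ℕ) = 0 ∨ _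
    by_cases h : R3_tq w.succ (RR θ x (gE (bas v) (bas v))) = 1
    · right; exact if_pos h
    · left; exact if_neg h
  have hτ0 : τ 0 = 0 := by
    rcases hτ01 0 with h | h
    · exact h
    · exfalso
      have h1 := hNum.2.2.1 w
      have h2 : nn 0 * τ 0 ≤ ∑ v, nn v * τ v :=
        Finset.single_le_sum (f := fun v => nn v * τ v) (fun _ _ => Nat.zero_le _)
          (Finset.mem_univ 0)
      rw [h, ← hsum'] at h2
      omega
  have hT : (Finset.univ.filter fun v : Fin hh => τ v.succ = 1) = {w} := by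
    apply hNum.2.1 w
    rw [hsum', Fin.sum_univ_succ, hτ0, mul_zero, zero_add, Finset.sum_filter]
    refine Finset.sum_congr rfl fun v _ => ?_
    rcases hτ01 v.succ with h | h
    · simp [h]
    · simp [h]
  have hτw : τ w.succ = 1 := by
    have : w ∈ (Finset.univ.filter fun v : Fin hh => τ v.succ = 1) := by rw [hT]; simp
    simpa using this
  -- ξ vanishes on the block
  have hξ0 : ∀ a : II, a.1 = w.succ → ξ a = 0 := by
    intro a ha
    have h0 : ∀ a : II, a.1 = w.succ → ζ (bas 0) a = 0 := by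
      rcases hd (bas 0) with h | h
      · exact h.1
      · exfalso
        have := hτ 0
        rw [h.2, hτ0] at this
        simp at this
    rw [← hξE, Matrix.mulVec, dotProduct]
    refine Finset.sum_eq_zero fun b _ => ?_
    rw [hζ2, h0 a ha, zero_mul, zero_mul]
  have hζw : ∀ a : II, a.1 ≠ w.succ → ζ (bas w.succ) a = 0 := by
    rcases hd (bas w.succ) with h | h
    · exfalso
      have := hτ w.succ
      rw [h.2, hτw] at this
      simp at this
    · exact h.1
  -- the vector η = 0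
  have cB := R3_cmB hGen θ x hx w
  have hη : (RR θ x (gB w)).mulVec ξ = 0 := by
    have e1 : RR θ x (gB w) = RR θ x (gE (bas w.succ) (bas w.succ)) * RR θ x (gB w) := by
      rw [← ((hR0 θ x).1 _ _ (hCE _) cB).1, (hGen.2.2.2.2.2.2.2.2.2.2.2.2.1 w).2]
    ext a
    by_cases ha : a.1 = w.succ
    · rw [Matrix.mulVec, dotProduct]
      refine Finset.sum_eq_zero fun b _ => ?_
      by_cases hb : b.1 = w.succ
      · rw [hξ0 b hb, mul_zero]
      · rw [hpat _ cB.1 a b (by simp [ha, hb]), zero_mul]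
    · rw [e1, ← Matrix.mulVec_mulVec, Matrix.mulVec, dotProduct]
      refine Finset.sum_eq_zero fun b _ => ?_
      rw [hζ2, hζw a ha, zero_mul, zero_mul]
  have h2 := (hR2 θ x hx ξ hξ hξE).2 c hc w
  rw [hη] at h2
  have h3 : ((bet w c : ℝ) : ℂ) ^ 2 = 0 := by
    rw [← h2]; simp [ip]
  have h4 : bet w c = 0 := by
    have := pow_eq_zero_iff (two_ne_zero) |>.1 h3
    exact_mod_cast this
  unfold bet at h4
  have h5 := le_max_right (0 : ℝ) (4 / 5 - ‖inner ℂ (cc w : EuclideanSpace ℂ (Fin 3)) c‖)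
  rw [h4] at h5
  linarith

end Pool.OPP
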