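import Mathlib
import Pool.Agent.H7.OPP.Stmts

set_option autoImplicit false

open scoped Topology ComplexConjugate Uniformity

namespace Pool.OPP

theorem TYP_bv (s u : JI) : (bv s : JI → ℂ) u = if u = s then 1 else 0 := by
  unfold bv
  by_cases h : u = s
  · subst h; simp
  · simp [h]

theorem TYP_norm_bv (s : JI) : ‖bv s‖ = 1 := by
  unfold bv
  rw [lp.norm_single (by norm_num)]
  simp

theorem TYP_PP_norm (hD : SDia) (m : ℕ) : ‖PP m‖ ≤ 1 := by
  have h1 := (hD.2.2.2.2.2.1 m)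
  have h2 : ‖PP m‖ * ‖PP m‖ = ‖PP m‖ := by
    rw [← CStarRing.norm_star_mul_self, h1.1, h1.2]
  nlinarith [norm_nonneg (PP m)]

/-- the sum of the coordinates bounds the off-diagonal part -/
theorem TYP_vec (hD : SDia) (m : ℕ) (f : BH) (t : JI) (ht : t ∈ JJ m)
    (hc : PP m * f = f * PP m) (η : ℝ)
    (hη : ∀ s ∈ JJ m, s ∉ JJ 0 → ‖mc f s t‖ ≤ η) (hη0 : 0 ≤ η) :
    ‖f (bv t) - PP 0 (f (bv t))‖ ≤ (JJ m).card * η := by
  have hv : f (bv t) - PP 0 (f (bv t)) =
      ∑ s ∈ JJ m, (if s ∈ JJ 0 then (0 : ℂ) else mc f s t) • bv s := by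
    ext u
    have e1 : ((∑ s ∈ JJ m, (if s ∈ JJ 0 then (0 : ℂ) else mc f s t) • bv s : HH) : JI → ℂ) u =
        ∑ s ∈ JJ m, (if s ∈ JJ 0 then (0 : ℂ) else mc f s t) * (bv s : JI → ℂ) u := by
      rw [lp.coeFn_sum, Finset.sum_apply]
      rfl
    rw [e1]
    have e2 : ((f (bv t) - PP 0 (f (bv t)) : HH) : JI → ℂ) u =
        mc f u t - (if u ∈ JJ 0 then mc f u t else 0) := by
      have := hD.2.2.1 0 (f (bv t)) u
      show (f (bv t) : JI → ℂ) u - (PP 0 (f (bv t)) : JI → ℂ) u = _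
      rw [this]
      rfl
    rw [e2]
    have e3 : ∑ s ∈ JJ m, (if s ∈ JJ 0 then (0 : ℂ) else mc f s t) * (bv s : JI → ℂ) u =
        if u ∈ JJ m then (if u ∈ JJ 0 then (0 : ℂ) else mc f u t) else 0 := by
      simp only [TYP_bv, mul_ite, mul_one, mul_zero]
      rw [Finset.sum_ite_eq]
    rw [e3]
    by_cases hu : u ∈ JJ m
    · rw [if_pos hu]
      split_ifs <;> ring
    · rw [if_neg hu]
      have h1 := (hD.2.2.2.2.2.2.2.2.1 f m u t)
      rw [if_neg hu, if_pos ht, hc] at h1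
      rw [h1.1] at h1
      have h2 : mc f u t = 0 := by
        have := h1.2
        rw [← this]
      rw [h2]; simp
  rw [hv]
  refine (norm_sum_le _ _).trans ?_
  rw [← nsmul_eq_mul]
  refine Finset.sum_le_card_nsmul _ _ _ fun s hs => ?_
  rw [norm_smul, TYP_norm_bv, mul_one]
  split_ifs with h
  · simpa using hη0
  · exact hη s hs h

/-- the index type -/
abbrev TYP_ix (m : ℕ) : Type :=
  Gx × {s : JI // s ∈ JJ m ∧ s.2.Nonempty} × ({i : II // i ≠ istar} ⊕ Fin 3)

noncomputable instance (m : ℕ) : Fintype {s : JI // s ∈ JJ m ∧ s.2.Nonempty} :=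
  Fintype.ofInjective (fun s => (⟨s.1, s.2.1⟩ : JJ m)) (by
    intro a b h
    exact Subtype.ext (congrArg (fun z : JJ m => (z : JI)) h))

noncomputable def TYP_ty (m : ℕ) (i : TYP_ix m) : ℕ := i.2.1.1.2.sup id + 1

theorem TYP_mem_sup (T : Finset ℕ) (h : T.Nonempty) : T.sup id ∈ T := by
  obtain ⟨a, ha, h2⟩ := Finset.exists_mem_eq_sup T h id
  rw [h2]; exact ha

theorem TYP_card (hG : Fintype.card Gx = cG) (m j : ℕ) :
    Fintype.card {i : TYP_ix m // TYP_ty m i = j + 1} ≤ cG * (cI * 2 ^ j) * (cI + 2) := by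
  classical
  have h1 : Fintype.card (Gx × (II × {T : Finset ℕ // T ∈ (Finset.range j).powerset}) ×
      ({i : II // i ≠ istar} ⊕ Fin 3)) = cG * (cI * 2 ^ j) * (cI + 2) := by
    rw [Fintype.card_prod Gx, hG, Fintype.card_prod (II × _), Fintype.card_prod II,
      Fintype.card_sum,
      Fintype.card_coe, Finset.card_powerset, Finset.card_range, Fintype.card_fin]
    have h2 : Fintype.card {i : II // i ≠ istar} = cI - 1 := by
      rw [Fintype.card_subtype_compl, Fintype.card_subtype_eq]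
      rfl
    have h3 : 1 ≤ cI := Fintype.card_pos_iff.2 ⟨istar⟩
    rw [h2]
    have h4 : cI - 1 + 3 = cI + 2 := by omega
    rw [h4]
    unfold cI
    ring
  rw [← h1]
  refine Fintype.card_le_of_injective (fun i => (i.1.1,
    (i.1.2.1.1.1, ⟨i.1.2.1.1.2.erase j, ?_⟩), i.1.2.2)) ?_
  · rw [Finset.mem_powerset]
    intro a ha
    rw [Finset.mem_erase] at ha
    have hs : i.1.2.1.1.2.sup id = j := by
      have := i.2
      unfold TYP_ty at this
      omega
    have h5 : a ≤ i.1.2.1.1.2.sup id := Finset.le_sup (f := id) ha.2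
    rw [Finset.mem_range]
    omega
  · rintro ⟨⟨g, ⟨s, hs1, hs2⟩, t⟩, hi⟩ ⟨⟨g', ⟨s', hs1', hs2'⟩, t'⟩, hi'⟩ h
    simp only [Prod.mk.injEq, Subtype.mk.injEq] at h
    obtain ⟨h1, ⟨h2, h3⟩, h4⟩ := h
    have e1 : s.2.sup id = j := by unfold TYP_ty at hi; simpa using hi
    have e2 : s'.2.sup id = j := by unfold TYP_ty at hi'; simpa using hi'
    have m1 : j ∈ s.2 := e1 ▸ TYP_mem_sup s.2 hs2
    have m2 : j ∈ s'.2 := e2 ▸ TYP_mem_sup s'.2 hs2'
    have h5 : s.2 = s'.2 := by
      rw [← Finset.insert_erase m1, ← Finset.insert_erase m2, h3]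
    have h6 : s = s' := Prod.ext h2 h5
    subst h6; subst h1; subst h4
    rfl

theorem TYP_y (x : SS) : ∑ k, ‖y0 x k‖ ^ 2 = 1 := by
  have h : ‖y0 x‖ = 1 := norm_eq_of_mem_sphere (x 0)
  rw [← EuclideanSpace.norm_sq_eq, h, one_pow]

/-- module TYP -/
theorem sTyp (hTh : STh) (hDen : SDen) (hEnt : SEnt) (hD : SDia) (hAct : SAct) (hGen : SGen) :
    STyp := by
  classical
  intro θ ε hε
  obtain ⟨m, a, -, ha⟩ := hDen Gx (fun g => θ.th (gen g))
    (fun g => ((hTh θ).1 _ (hGen.1 g).2).1) (ε / 4) (by positivity) 0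
  have hA : ∀ g, ∃ A : JI → JI → C(SS, ℂ), ∀ s ∈ JJ m, ∀ t ∈ JJ m,
      Adm s t (A s t) ∧ ∀ x, A s t x = mc (a g x) s t := fun g =>
    hEnt.2.1 m (a g) (ha g).1 m le_rfl
  choose A hA using hA
  have hbase : ∀ i : II, ((i, ∅) : JI) ∈ JJ m := by
    intro i; simp [JJ]
  have hbase0 : ∀ s : JI, s ∈ JJ 0 ↔ ¬ s.2.Nonempty := by
    intro s
    simp only [JJ, Finset.mem_product, Finset.mem_univ, true_and, Finset.mem_powerset,
      Finset.range_zero, Finset.subset_empty, Finset.not_nonempty_iff_eq_empty]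
  let N : ℝ := ((JJ m).card : ℝ)
  have hN : 0 ≤ N := Nat.cast_nonneg _
  let η : ℝ := ε / (4 * (3 * N + 3))
  have hη : 0 < η := by positivity
  let gf : TYP_ix m → SS → ℂ := fun i x =>
    match i.2.2 with
    | Sum.inl j => A i.1 i.2.1.1 (j.1, ∅) x
    | Sum.inr k => y0 x k * A i.1 i.2.1.1 (istar, ∅) x
  refine ⟨Finset.range (m + 1), TYP_ix m, inferInstance, TYP_ty m, gf, η, by simp, ?_, ?_, ?_, ?_,
    hη, ?_⟩
  · rintro ⟨g, ⟨s, hs1, hs2⟩, t⟩
    have h1 := TYP_mem_sup s.2 hs2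
    simp only [JJ, Finset.mem_product, Finset.mem_univ, true_and, Finset.mem_powerset] at hs1
    have h2 := Finset.mem_range.1 (hs1 h1)
    refine ⟨?_, by unfold TYP_ty; simp⟩
    unfold TYP_ty
    simp only [Finset.mem_range]
    omega
  · intro j
    cases j with
    | zero =>
      have : Fintype.card {i : TYP_ix m // TYP_ty m i = 0} = 0 := by
        rw [Fintype.card_eq_zero_iff]
        exact ⟨fun i => by have := i.2; unfold TYP_ty at this; omega⟩
      rw [this]; simp [NN]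
    | succ j =>
      have := TYP_card hGen.2.2.1 m j
      show 2 * _ + 1 ≤ 2 * (cG * (cI * 2 ^ j) * (cI + 2)) + 1
      omega
  · rintro ⟨g, s, t⟩
    rcases t with j | k
    · exact (A g s.1 (j.1, ∅)).continuous
    · have h : Continuous fun x : SS => y0 x k := (yf k).continuous
      exact h.mul (A g s.1 (istar, ∅)).continuous
  · rintro ⟨g, ⟨s, hs1, hs2⟩, t⟩ j hj x
    have hws : wt s = some (s.2.sup id + 1) := by unfold wt; rw [if_pos hs2]
    have hchi : chi (Pi.single j 1) s = if j = s.2.sup id + 1 then om else 1 := by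
      rw [hAct.2.2.2.2.2.2.2.2.2.2.2.1 j s, hws]
      by_cases h : j = s.2.sup id + 1
      · simp [h]
      · rw [if_neg h, if_neg]
        intro h'
        exact h (Option.some.inj h').symm
    rcases t with i | k
    · show A g s (i.1, ∅) (tt j x) = (if j = s.2.sup id + 1 then om else 1) * A g s (i.1, ∅) x
      rw [hAct.2.2.2.2.1 j x, (hA g s hs1 (i.1, ∅) (hbase _)).1.1, hchi,
        hAct.2.2.2.2.2.2.2.2.2.2.2.1 j (i.1, ∅)]
      have : wt ((i.1, ∅) : JI) = none := by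
        unfold wt; simp [i.2]
      rw [this]; simp
    · show y0 (tt j x) k * A g s (istar, ∅) (tt j x) =
        (if j = s.2.sup id + 1 then om else 1) * (y0 x k * A g s (istar, ∅) x)
      rw [hAct.2.2.2.2.1 j x, (hA g s hs1 (istar, ∅) (hbase _)).1.1, hchi,
        hAct.2.2.2.2.2.2.2.2.2.2.2.1 j (istar, ∅), hAct.2.2.2.2.2.2.2.1]
      have h0 : wt ((istar, ∅) : JI) = some 0 := by unfold wt; simp
      rw [h0]
      by_cases hj0 : j = 0
      · subst hj0
        have h1 : ((Pi.single 0 1 : ℕ → ZMod 3) 0).val = 1 := by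
          rw [Pi.single_eq_same]; rfl
        rw [h1]
        have h2 : om * conj om = 1 := by
          rw [Complex.mul_conj, Complex.normSq_eq_norm_sq, norm_om]; simp
        simp only [if_true, pow_one, PiLp.smul_apply, smul_eq_mul]
        calc om * y0 x k * ((if 0 = s.2.sup id + 1 then om else 1) * conj om *
              A g s (istar, ∅) x)
            = (om * conj om) * ((if 0 = s.2.sup id + 1 then om else 1) *
              (y0 x k * A g s (istar, ∅) x)) := by ring
          _ = _ := by rw [h2, one_mul]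
      · have h1 : ((Pi.single j 1 : ℕ → ZMod 3) 0).val = 0 := by
          rw [Pi.single_eq_of_ne (Ne.symm hj0)]; rfl
        rw [h1]
        have h3 : ¬ (some 0 = some j) := fun h => hj0 (Option.some.inj h).symm
        rw [if_neg h3]
        simp only [pow_zero, one_smul, map_one, mul_one]
        ring
  · intro x hx g i
    have hmc : ∀ s ∈ JJ m, s ∉ JJ 0 → ‖mc (a g x) s (i, ∅)‖ ≤ 3 * η := by
      intro s hs hs0
      have hsn : s.2.Nonempty := by
        by_contra h
        exact hs0 ((hbase0 s).2 h)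
      rw [← (hA g s hs (i, ∅) (hbase i)).2 x]
      by_cases hi : i = istar
      · subst hi
        have h1 : ∀ k, ‖y0 x k * A g s (istar, ∅) x‖ < η := fun k =>
          hx (g, ⟨s, hs, hsn⟩, Sum.inr k)
        have h2 : ‖A g s (istar, ∅) x‖ = ∑ k, ‖y0 x k‖ * ‖y0 x k * A g s (istar, ∅) x‖ := by
          rw [← one_mul ‖A g s (istar, ∅) x‖, ← TYP_y x, Finset.sum_mul]
          refine Finset.sum_congr rfl fun k _ => ?_
          rw [norm_mul]; ring
        have h3 : ∀ k, ‖y0 x k‖ ≤ 1 := by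
          intro k
          have h4 := TYP_y x
          have h5 : ‖y0 x k‖ ^ 2 ≤ ∑ k, ‖y0 x k‖ ^ 2 :=
            Finset.single_le_sum (f := fun k => ‖y0 x k‖ ^ 2) (fun _ _ => by positivity)
              (Finset.mem_univ k)
          rw [h4] at h5
          nlinarith [norm_nonneg (y0 x k)]
        rw [h2]
        calc ∑ k, ‖y0 x k‖ * ‖y0 x k * A g s (istar, ∅) x‖ ≤ ∑ k : Fin 3, 1 * η := by
              refine Finset.sum_le_sum fun k _ => ?_
              exact mul_le_mul (h3 k) (h1 k).le (norm_nonneg _) zero_le_one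
          _ = 3 * η := by simp
      · have h1 : ‖A g s (i, ∅) x‖ < η := hx (g, ⟨s, hs, hsn⟩, Sum.inl ⟨i, hi⟩)
        linarith
    have h1 := TYP_vec hD m (a g x) (i, ∅) (hbase i) (hEnt.2.2 m (a g) (ha g).1 m le_rfl x)
      (3 * η) hmc (by positivity)
    have h2 : ‖(a g - θ.th (gen g)) x‖ ≤ ε / 4 :=
      (ContinuousMap.norm_coe_le_norm _ x).trans (ha g).2.2.le
    have h3 : ‖(a g - θ.th (gen g)) x (bv (i, ∅))‖ ≤ ε / 4 := by
      refine (ContinuousLinearMap.le_opNorm _ _).trans ?_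
      rw [TYP_norm_bv, mul_one]; exact h2
    have h4 : ‖PP 0 ((a g - θ.th (gen g)) x (bv (i, ∅)))‖ ≤ ε / 4 := by
      refine (ContinuousLinearMap.le_opNorm _ _).trans ?_
      have := TYP_PP_norm hD 0
      calc ‖PP 0‖ * ‖(a g - θ.th (gen g)) x (bv (i, ∅))‖ ≤ 1 * (ε / 4) :=
            mul_le_mul this h3 (norm_nonneg _) zero_le_one
        _ = ε / 4 := one_mul _
    have h5 : θ.th (gen g) x (bv (i, ∅)) - PP 0 (θ.th (gen g) x (bv (i, ∅))) =
        (a g x (bv (i, ∅)) - PP 0 (a g x (bv (i, ∅)))) -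
        (a g - θ.th (gen g)) x (bv (i, ∅)) + PP 0 ((a g - θ.th (gen g)) x (bv (i, ∅))) := by
      have e : (a g - θ.th (gen g)) x (bv (i, ∅)) = a g x (bv (i, ∅)) -
          θ.th (gen g) x (bv (i, ∅)) := rfl
      rw [e, map_sub]
      abel
    have h6 : (JJ m).card * (3 * η) < ε / 2 := by
      show N * (3 * (ε / (4 * (3 * N + 3)))) < ε / 2
      have : N * (3 * (ε / (4 * (3 * N + 3)))) = (3 * N / (3 * N + 3)) * (ε / 4) := by
        field_simp
      rw [this]
      have h7 : 3 * N / (3 * N + 3) ≤ 1 := by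
        rw [div_le_one (by positivity)]; linarith
      nlinarith
    rw [h5]
    calc ‖_ - _ + _‖ ≤ ‖a g x (bv (i, ∅)) - PP 0 (a g x (bv (i, ∅)))‖ +
          ‖(a g - θ.th (gen g)) x (bv (i, ∅))‖ + ‖PP 0 ((a g - θ.th (gen g)) x (bv (i, ∅)))‖ :=
          (norm_add_le _ _).trans (add_le_add (norm_sub_le _ _) le_rfl)
      _ < ε := by linarith

end Pool.OPP
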