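import Mathlib
import Pool.Agent.H7.OPP.Stmts

set_option autoImplicit false

open scoped Topology ComplexConjugate Uniformity
open scoped MatrixOrder Matrix.Norms.L2Operator ComplexOrder

namespace Pool.OPP

theorem NPSIn_sqrt {N : Type} [Fintype N] [DecidableEq N] (M : Matrix N N ℂ)
    (h : M.PosSemidef) : ∃ C : Matrix N N ℂ, M = star C * C :=
  CStarAlgebra.nonneg_iff_eq_star_mul_self.mp h.nonneg

theorem NPSIn_dot {N : Type} [Fintype N] (v : N → ℂ) :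
    star v ⬝ᵥ v = ((∑ i, ‖v i‖ ^ 2 : ℝ) : ℂ) := by
  unfold dotProduct
  push_cast
  refine Finset.sum_congr rfl fun i _ => ?_
  show conj (v i) * v i = _
  rw [Complex.conj_mul']

theorem NPSIn_bound {m : ℕ} (M : Matrix (Fin m) (Fin m) ℂ) (v : Fin m → ℂ) :
    ∑ i, ‖M.mulVec v i‖ ^ 2 ≤
      ‖Matrix.toEuclideanCLM (𝕜 := ℂ) M‖ ^ 2 * ∑ i, ‖v i‖ ^ 2 := by
  have h := (Matrix.toEuclideanCLM (𝕜 := ℂ) M).le_opNorm (WithLp.toLp 2 v)
  have h1 : ‖(Matrix.toEuclideanCLM (𝕜 := ℂ) M) (WithLp.toLp 2 v)‖ ^ 2 =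
      ∑ i, ‖M.mulVec v i‖ ^ 2 := by
    rw [EuclideanSpace.norm_sq_eq]
    rfl
  have h2 : ‖(WithLp.toLp 2 v : EuclideanSpace ℂ (Fin m))‖ ^ 2 = ∑ i, ‖v i‖ ^ 2 := by
    rw [EuclideanSpace.norm_sq_eq]
  rw [← h1, ← h2, ← mul_pow]
  exact pow_le_pow_left₀ (norm_nonneg _) h 2

theorem NPSIn_pos {m : ℕ} (M : Matrix (Fin m) (Fin m) ℂ) (r : ℝ) (hr : 0 < r)
    (hM : ‖Matrix.toEuclideanCLM (𝕜 := ℂ) M‖ ≤ r) :
    ((r : ℂ) • (1 : Matrix (Fin m) (Fin m) ℂ) - ((r⁻¹ : ℝ) : ℂ) • (star M * M)).PosSemidef := by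
  refine Matrix.PosSemidef.of_dotProduct_mulVec_nonneg ?_ fun v => ?_
  · unfold Matrix.IsHermitian
    rw [Matrix.conjTranspose_sub, Matrix.conjTranspose_smul, Matrix.conjTranspose_smul,
      Matrix.conjTranspose_one]
    have : (star M * M).conjTranspose = star M * M := by
      rw [← Matrix.star_eq_conjTranspose, star_mul, star_star]
    rw [this]
    simp
  · have h1 : star v ⬝ᵥ (((r : ℂ) • (1 : Matrix (Fin m) (Fin m) ℂ) -
        ((r⁻¹ : ℝ) : ℂ) • (star M * M)).mulVec v) =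
        ((r * ∑ i, ‖v i‖ ^ 2 - r⁻¹ * ∑ i, ‖M.mulVec v i‖ ^ 2 : ℝ) : ℂ) := by
      rw [Matrix.sub_mulVec, Matrix.smul_mulVec, Matrix.smul_mulVec, Matrix.one_mulVec,
        dotProduct_sub, dotProduct_smul, dotProduct_smul, ← Matrix.mulVec_mulVec,
        Matrix.star_eq_conjTranspose, Matrix.dotProduct_mulVec, ← Matrix.star_mulVec,
        NPSIn_dot, NPSIn_dot]
      push_cast
      simp only [smul_eq_mul]
    rw [h1]
    have h2 := NPSIn_bound M v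
    have h3 : ‖Matrix.toEuclideanCLM (𝕜 := ℂ) M‖ ^ 2 ≤ r ^ 2 :=
      pow_le_pow_left₀ (norm_nonneg _) hM 2
    have h4 : 0 ≤ ∑ i, ‖v i‖ ^ 2 := Finset.sum_nonneg fun _ _ => by positivity
    have h5 : ∑ i, ‖M.mulVec v i‖ ^ 2 ≤ r ^ 2 * ∑ i, ‖v i‖ ^ 2 :=
      h2.trans (mul_le_mul_of_nonneg_right h3 h4)
    have h6 : 0 ≤ r * ∑ i, ‖v i‖ ^ 2 - r⁻¹ * ∑ i, ‖M.mulVec v i‖ ^ 2 := by
      have : r⁻¹ * ∑ i, ‖M.mulVec v i‖ ^ 2 ≤ r⁻¹ * (r ^ 2 * ∑ i, ‖v i‖ ^ 2) :=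
        mul_le_mul_of_nonneg_left h5 (by positivity)
      have h7 : r⁻¹ * (r ^ 2 * ∑ i, ‖v i‖ ^ 2) = r * ∑ i, ‖v i‖ ^ 2 := by
        field_simp
      linarith
    exact_mod_cast h6

/-- the norm bound from complete positivity and unitality -/
theorem NPSI_norm (m : ℕ) (ψ : Matrix (Fin m) (Fin m) ℂ →ₗ[ℂ] AA) (h1 : ψ 1 = 1)
    (hcp : ∀ n' : ℕ, ∀ B : Fin n' → Fin n' → Matrix (Fin m) (Fin m) ℂ,
      ∃ C : Fin n' → Fin n' → AA,
        ∀ i j, ψ (∑ l, star (B l i) * B l j) = ∑ l, star (C l i) * C l j)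
    (M : Matrix (Fin m) (Fin m) ℂ) : ‖ψ M‖ ≤ ‖Matrix.toEuclideanCLM (𝕜 := ℂ) M‖ := by
  by_cases hM0 : ‖Matrix.toEuclideanCLM (𝕜 := ℂ) M‖ = 0
  · have : M = 0 := by
      have h2 : Matrix.toEuclideanCLM (𝕜 := ℂ) M = 0 := norm_eq_zero.1 hM0
      exact (map_eq_zero_iff _ (Matrix.toEuclideanCLM (𝕜 := ℂ) (n := Fin m)).injective).1 h2
    rw [this]; simp
  obtain ⟨r, hrdef⟩ : ∃ r : ℝ, r = ‖Matrix.toEuclideanCLM (𝕜 := ℂ) M‖ := ⟨_, rfl⟩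
  rw [← hrdef]
  have hr : 0 < r := by
    rw [hrdef]; exact lt_of_le_of_ne (norm_nonneg _) (Ne.symm hM0)
  obtain ⟨D, hD⟩ := NPSIn_sqrt _ (NPSIn_pos M r hr (le_of_eq hrdef.symm))
  -- the block matrix
  let q : ℂ := ((Real.sqrt r : ℝ) : ℂ)
  let q' : ℂ := (((Real.sqrt r)⁻¹ : ℝ) : ℂ)
  have hsr : Real.sqrt r ≠ 0 := (Real.sqrt_pos.2 hr).ne'
  have hqq : q * q = (r : ℂ) := by
    show ((Real.sqrt r : ℝ) : ℂ) * ((Real.sqrt r : ℝ) : ℂ) = (r : ℂ)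
    rw [← Complex.ofReal_mul, Real.mul_self_sqrt hr.le]
  have hqq' : q * q' = 1 := by
    show ((Real.sqrt r : ℝ) : ℂ) * (((Real.sqrt r)⁻¹ : ℝ) : ℂ) = 1
    rw [← Complex.ofReal_mul, mul_inv_cancel₀ hsr]; simp
  have hq'q' : q' * q' = ((r⁻¹ : ℝ) : ℂ) := by
    show (((Real.sqrt r)⁻¹ : ℝ) : ℂ) * (((Real.sqrt r)⁻¹ : ℝ) : ℂ) = _
    rw [← Complex.ofReal_mul, ← mul_inv, Real.mul_self_sqrt hr.le]
  have hstq : star q = q := Complex.conj_ofReal _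
  have hstq' : star q' = q' := Complex.conj_ofReal _
  let B : Fin 2 → Fin 2 → Matrix (Fin m) (Fin m) ℂ := fun l i =>
    if l = 0 then (if i = 0 then q • 1 else q' • M) else (if i = 0 then 0 else D)
  obtain ⟨C, hC⟩ := hcp 2 B
  have b00 : ∑ l, star (B l 0) * B l 0 = (r : ℂ) • (1 : Matrix (Fin m) (Fin m) ℂ) := by
    rw [Fin.sum_univ_two]
    show star (q • (1 : Matrix (Fin m) (Fin m) ℂ)) * (q • 1) +
      star (0 : Matrix (Fin m) (Fin m) ℂ) * 0 = _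
    rw [star_smul, star_one, hstq, mul_zero, add_zero, smul_mul_smul_comm, mul_one, hqq]
  have b01 : ∑ l, star (B l 0) * B l 1 = M := by
    rw [Fin.sum_univ_two]
    show star (q • (1 : Matrix (Fin m) (Fin m) ℂ)) * (q' • M) +
      star (0 : Matrix (Fin m) (Fin m) ℂ) * D = _
    rw [star_smul, star_one, hstq, star_zero, zero_mul, add_zero, smul_mul_smul_comm, one_mul,
      hqq', one_smul]
  have b11 : ∑ l, star (B l 1) * B l 1 = (r : ℂ) • (1 : Matrix (Fin m) (Fin m) ℂ) := by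
    rw [Fin.sum_univ_two]
    show star (q' • M) * (q' • M) + star D * D = _
    rw [← hD, star_smul, hstq', smul_mul_smul_comm, hq'q']
    abel
  have c00 : ∑ l, star (C l 0) * C l 0 = (r : ℂ) • (1 : AA) := by
    rw [← hC 0 0, b00, map_smul, h1]
  have c01 : ψ M = ∑ l, star (C l 0) * C l 1 := by
    rw [← hC 0 1, b01]
  have c11 : ∑ l, star (C l 1) * C l 1 = (r : ℂ) • (1 : AA) := by
    rw [← hC 1 1, b11, map_smul, h1]
  -- pointwise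
  have hval : ∀ (i j : Fin 2) (x : SS) (ξ η : HH),
      inner ℂ ξ (((∑ l, star (C l i) * C l j : AA) : BB) x η) =
      ∑ l, inner ℂ (((C l i : AA) : BB) x ξ) (((C l j : AA) : BB) x η) := by
    intro i j x ξ η
    have e1 : (((∑ l, star (C l i) * C l j : AA) : BB) x) =
        ∑ l, star (((C l i : AA) : BB) x) * (((C l j : AA) : BB) x) := by
      rw [Fin.sum_univ_two, Fin.sum_univ_two]
      rfl
    rw [e1, ContinuousLinearMap.sum_apply, inner_sum]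
    refine Finset.sum_congr rfl fun l _ => ?_
    rw [ContinuousLinearMap.star_eq_adjoint]
    show inner ℂ ξ ((ContinuousLinearMap.adjoint (((C l i : AA) : BB) x))
      ((((C l j : AA) : BB) x) η)) = _
    rw [ContinuousLinearMap.adjoint_inner_right]
  have hsq : ∀ (i : Fin 2) (x : SS) (ξ : HH), ∑ l, star (C l i) * C l i = (r : ℂ) • (1 : AA) →
      ∑ l, ‖((C l i : AA) : BB) x ξ‖ ^ 2 = r * ‖ξ‖ ^ 2 := by
    intro i x ξ hi
    have e := hval i i x ξ ξ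
    rw [hi] at e
    have e1 : ((((r : ℂ) • (1 : AA) : AA) : BB) x) ξ = (r : ℂ) • ξ := rfl
    rw [e1, inner_smul_right, inner_self_eq_norm_sq_to_K] at e
    simp only [inner_self_eq_norm_sq_to_K] at e
    have e2 : ((r * ‖ξ‖ ^ 2 : ℝ) : ℂ) =
        ((∑ l, ‖((C l i : AA) : BB) x ξ‖ ^ 2 : ℝ) : ℂ) := by
      push_cast
      exact e
    exact (Complex.ofReal_injective e2).symm
  have hb : ∀ (x : SS) (ξ η : HH), ‖inner ℂ ξ ((ψ M : BB) x η)‖ ≤ r * (‖ξ‖ * ‖η‖) := by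
    intro x ξ η
    rw [c01, hval 0 1 x ξ η]
    have e1 : ‖∑ l, inner ℂ (((C l 0 : AA) : BB) x ξ) (((C l 1 : AA) : BB) x η)‖ ≤
        ∑ l, ‖((C l 0 : AA) : BB) x ξ‖ * ‖((C l 1 : AA) : BB) x η‖ :=
      (norm_sum_le _ _).trans (Finset.sum_le_sum fun l _ => norm_inner_le_norm _ _)
    refine e1.trans ?_
    have e2 := Finset.sum_mul_sq_le_sq_mul_sq Finset.univ
      (fun l => ‖((C l 0 : AA) : BB) x ξ‖) (fun l => ‖((C l 1 : AA) : BB) x η‖)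
    rw [hsq 0 x ξ c00, hsq 1 x η c11] at e2
    have e3 : r * ‖ξ‖ ^ 2 * (r * ‖η‖ ^ 2) = (r * (‖ξ‖ * ‖η‖)) ^ 2 := by ring
    rw [e3] at e2
    exact le_of_sq_le_sq e2 (by positivity)
  have hx : ∀ x : SS, ‖(ψ M : BB) x‖ ≤ r := by
    intro x
    refine ContinuousLinearMap.opNorm_le_bound _ hr.le fun η => ?_
    have e := hb x ((ψ M : BB) x η) η
    rw [inner_self_eq_norm_sq_to_K] at e
    have e1 : ‖(((‖(ψ M : BB) x η‖ : ℝ) : ℂ)) ^ 2‖ = ‖(ψ M : BB) x η‖ * ‖(ψ M : BB) x η‖ := by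
      rw [norm_pow, Complex.norm_real, norm_norm, sq]
    have e2 : ‖(ψ M : BB) x η‖ * ‖(ψ M : BB) x η‖ ≤ r * (‖(ψ M : BB) x η‖ * ‖η‖) := by
      rw [← e1]; exact e
    by_cases h0 : ‖(ψ M : BB) x η‖ = 0
    · rw [h0]; positivity
    · have h0' : 0 < ‖(ψ M : BB) x η‖ := lt_of_le_of_ne (norm_nonneg _) (Ne.symm h0)
      have e3 : ‖(ψ M : BB) x η‖ * ‖(ψ M : BB) x η‖ ≤ ‖(ψ M : BB) x η‖ * (r * ‖η‖) := by
        linarith
      exact le_of_mul_le_mul_left e3 h0'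
  show ‖(ψ M : BB)‖ ≤ r
  exact (ContinuousMap.norm_le _ hr.le).2 hx

end Pool.OPP
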