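import Pool.Agent.H7.OPP.TAll
import Pool.Agent.H7.OPP.Final
import Pool.Agent.H65.OPP.ACT
import Pool.Agent.H33.OPP.DIA
import Pool.Agent.H24.OPP.EL
import Pool.Agent.H65.OPP.ELA
import Pool.Agent.H59.OPP.NUMA
import Pool.Agent.H22.OPP.ORB
import Pool.Agent.H22.OPP.UNC
import Pool.Agent.H7.OPP.ADM
import Pool.Agent.H83.OPP.DEN
import Pool.Agent.H83.OPP.ENT
import Pool.Agent.H14.OPP.GA
import Pool.Agent.H33.OPP.GC
import Pool.Agent.H7.OPP.GUP
import Pool.Agent.H7.OPP.LEV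
import Pool.Agent.H87.OPP.MU
import Pool.Agent.H83.OPP.QEQ
import Pool.Agent.H62.OPP.SEP
import Pool.Agent.H83.OPP.SIM
import Pool.Agent.H87.OPP.ZZ
import Pool.Agent.H92.OPP.TOP
import Pool.Agent.H7.OPP.TYP
import Pool.Agent.H2.OPP.ZCP
import Pool.Agent.H7.OPP.NADM
import Pool.Agent.H70.OPP.NPSIf
import Pool.Agent.H4.OPP.NPHI
import Pool.Agent.H88.OPP.NPOS
import Pool.Agent.H26.OPP.NUC
import Pool.Agent.H4.OPP.PUN
import Pool.Agent.H15.OPP.FRC
import Pool.Agent.H26.OPP.FRQ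
import Pool.Agent.H26.OPP.FRX
import Pool.Agent.H33.OPP.GEN
import Pool.Agent.H2.OPP.KCO
import Pool.Agent.H55.OPP.R1
import Pool.Agent.H55.OPP.R1B
import Pool.Agent.H95.OPP.R2
import Pool.Agent.H7.OPP.R3
import Pool.Agent.H64.OPP.RR0
import Pool.Agent.H34.OPP.RR1
import Pool.Agent.H95.OPP.TH
import Pool.Agent.H14.OPP.VCT
import Pool.Agent.H34.OPP.VUN

/-!
# OPP: assembly of all modules
-/

namespace Pool.OPP.All

theorem ela : SEla := sEla sEl
theorem gc : SGc := sGc sEl ela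
theorem ga : SGa := sGa sEl ela gc
theorem gup : SGup := sGup sEl gc
theorem adm : SAdm := sAdm sAct
theorem lev : SLev := sLev ga gup adm
theorem den : SDen := sDen lev
theorem ent : SEnt := sEnt sEl ela gc lev
theorem qeq : SQeq := sQeq sAct sDia ent lev
theorem mu : SMu := sMu ga lev adm
theorem sim : SSim := sSim sZz mu lev den ent sDia ga
theorem sep : SSep := sSep ga lev
theorem nphi' : SNphi := nphi sDia
theorem pun' : SPun := pun sUnc
theorem nadm : SNadm := sNadm sAct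
theorem gen' : SGen := sGen ga gc adm lev sAct
theorem rr0 : SRr0 := sRr0 sTh sDia
theorem rr1 : SRr1 := sRr1 sTh qeq gen' sDia
theorem r1 : SR1 := sR1 sNum rr0 gen'
theorem r1b : SR1b := sR1b r1 rr0 gen'
theorem r2 : SR2 := sR2 r1b rr0 gen'
theorem r3 : SR3 := sR3 sNum r1b r2 rr0 rr1 gen'
theorem frx : SFrx := sFrx r1b r2 r3 sAct
theorem frq : SFrq := sFrq rr1 sAct gen'
theorem vun : SVun := sVun rr0 gen'
theorem frc : SFrc := sFrc r1b r3 rr1 sUnc sAct gen'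
theorem vct : SVct := sVct sNum frc rr1 sUnc vun gen'
theorem kco : SKco := sKco frc
theorem zcp : SZcp := sZcp sTh sDia gen'
theorem typ' : STyp := sTyp sTh den ent sDia sAct gen'
theorem top : STop := sTop (sOrb sAct) frx frq vun vct kco zcp typ' rr1 sAct sUnc
theorem anti_all : ¬ Nonempty Anti := no_anti top bridge tt_all

theorem npsi : SNpsi := sNpsi sAct sEl gc ga adm lev nadm sNpos
theorem nuc : SNuc := sNuc den pun' nphi' npsi ga sAct ent

end Pool.OPP.All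

namespace Pool.OPP

/-- a simple separable nuclear C*-algebra that is not anti-isomorphic to itself -/
theorem opp_all :
    ∃ (A : Type) (_ : NonUnitalCStarAlgebra A),
      Nontrivial A ∧
      (∀ I : TwoSidedIdeal A, IsClosed (I : Set A) → I = ⊥ ∨ I = ⊤) ∧
      TopologicalSpace.SeparableSpace A ∧
      (∀ F : Finset A, ∀ ε : ℝ, 0 < ε →
        ∃ (m : ℕ) (φ : A →ₗ[ℂ] Matrix (Fin m) (Fin m) ℂ)
          (ψ : Matrix (Fin m) (Fin m) ℂ →ₗ[ℂ] A),
          (∀ k : ℕ, ∀ B : Fin k → Fin k → A,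
            ∃ C : Fin k → Fin k → Matrix (Fin m) (Fin m) ℂ,
              ∀ i j, φ (∑ l, star (B l i) * B l j) = ∑ l, star (C l i) * C l j) ∧
          (∀ k : ℕ, ∀ B : Fin k → Fin k → Matrix (Fin m) (Fin m) ℂ,
            ∃ C : Fin k → Fin k → A,
              ∀ i j, ψ (∑ l, star (B l i) * B l j) = ∑ l, star (C l i) * C l j) ∧
          (∀ x : A, ‖Matrix.toEuclideanCLM (𝕜 := ℂ) (φ x)‖ ≤ ‖x‖) ∧
          (∀ M : Matrix (Fin m) (Fin m) ℂ, ‖ψ M‖ ≤ ‖Matrix.toEuclideanCLM (𝕜 := ℂ) M‖) ∧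
          ∀ x ∈ F, ‖ψ (φ x) - x‖ < ε) ∧
      ¬ ∃ f : A ≃ₗ[ℂ] A, (∀ x y : A, f (x * y) = f y * f x) ∧ ∀ x : A, f (star x) = star (f x) :=
  fin_opp All.sep All.sim All.nuc All.top bridge tt_all

end Pool.OPP
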