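import Mathlib
import Pool.Agent.H7.OPP.Stmts

set_option autoImplicit false

open scoped Topology ComplexConjugate Uniformity

namespace Pool.OPP

theorem LEV_zero (hGa : SGa) (k : ℕ) (s t : JI) (hs : s ∈ JJ k) (ht : t ∈ JJ k) :
    GG k s t 0 = 0 := by
  have h := (hGa k s t hs ht 0).2.2.1 0
  rw [add_zero] at h
  exact left_eq_add.1 h.symm

theorem LEV_gsum (hGa : SGa) (k : ℕ) (s t : JI) (hs : s ∈ JJ k) (ht : t ∈ JJ k) {ι : Type}
    (S : Finset ι) (h : ι → C(SS, ℂ)) : GG k s t (∑ i ∈ S, h i) = ∑ i ∈ S, GG k s t (h i) := by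
  classical
  induction S using Finset.induction_on with
  | empty => simpa using LEV_zero hGa k s t hs ht
  | insert a S ha ih =>
    rw [Finset.sum_insert ha, Finset.sum_insert ha, ← ih]
    exact ((hGa k s t hs ht (h a)).2.2.1 _).symm

theorem LEV_asum (hA : SAdm) (s t : JI) {ι : Type} (S : Finset ι) (h : ι → C(SS, ℂ))
    (hh : ∀ i ∈ S, Adm s t (h i)) : Adm s t (∑ i ∈ S, h i) := by
  classical
  induction S using Finset.induction_on with
  | empty => simpa using hA.2.2.2.2.1 s t
  | insert a S ha ih =>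
    rw [Finset.sum_insert ha]
    exact hA.1 _ _ _ _ (hh a (Finset.mem_insert_self _ _))
      (ih fun i hi => hh i (Finset.mem_insert_of_mem hi))

theorem LEV_mem (k : ℕ) (s : JI) : s ∈ JJ k ↔ ∀ i ∈ s.2, i < k := by
  simp only [JJ, Finset.mem_product, Finset.mem_univ, true_and, Finset.mem_powerset,
    Finset.subset_iff, Finset.mem_range]

theorem LEV_split (k : ℕ) {M : Type} [AddCommMonoid M] (F : JI → M) :
    ∑ s ∈ JJ (k + 1), F s = ∑ s ∈ JJ k, F s + ∑ s ∈ JJ k, F (jn s {k}) := by
  classical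
  have h1 : JJ (k + 1) = JJ k ∪ (JJ k).image (fun s => jn s {k}) := by
    ext s
    rw [Finset.mem_union, Finset.mem_image, LEV_mem, LEV_mem]
    constructor
    · intro h
      by_cases hk : k ∈ s.2
      · right
        refine ⟨(s.1, s.2.erase k), ?_, ?_⟩
        · rw [LEV_mem]
          intro i hi
          rw [Finset.mem_erase] at hi
          have := h i hi.2
          have h2 := hi.1
          omega
        · unfold jn
          refine Prod.ext rfl ?_
          ext i
          simp only [Finset.mem_union, Finset.mem_erase, Finset.mem_singleton]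
          constructor
          · rintro (h2 | h2)
            · exact h2.2
            · rw [h2]; exact hk
          · intro h2
            by_cases h3 : i = k
            · right; exact h3
            · left; exact ⟨h3, h2⟩
      · left
        intro i hi
        have := h i hi
        have h2 : i ≠ k := fun h3 => hk (h3 ▸ hi)
        omega
    · rintro (h | ⟨t, ht, rfl⟩) i hi
      · have := h i hi; omega
      · rw [LEV_mem] at ht
        unfold jn at hi
        simp only [Finset.mem_union, Finset.mem_singleton] at hi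
        rcases hi with hi | hi
        · have := ht i hi; omega
        · omega
  have hdis : Disjoint (JJ k) ((JJ k).image (fun s => jn s {k})) := by
    rw [Finset.disjoint_left]
    intro s hs hs'
    rw [Finset.mem_image] at hs'
    obtain ⟨t, _, rfl⟩ := hs'
    rw [LEV_mem] at hs
    have := hs k (by unfold jn; simp)
    omega
  rw [h1, Finset.sum_union hdis, Finset.sum_image]
  intro s hs t ht hst
  rw [Finset.mem_coe, LEV_mem] at hs ht
  unfold jn at hst
  have h2 := congrArg Prod.fst hst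
  have h3 := congrArg Prod.snd hst
  refine Prod.ext h2 ?_
  ext i
  have h4 : i ∈ s.2 ∪ {k} ↔ i ∈ t.2 ∪ {k} := by
    show i ∈ (s.1, s.2 ∪ {k}).2 ↔ i ∈ (t.1, t.2 ∪ {k}).2
    rw [h3]
  simp only [Finset.mem_union, Finset.mem_singleton] at h4
  constructor
  · intro hi
    rcases h4.1 (Or.inl hi) with h5 | h5
    · exact h5
    · have := hs i hi; omega
  · intro hi
    rcases h4.2 (Or.inl hi) with h5 | h5
    · exact h5
    · have := ht i hi; omega

theorem LEV_up (hGa : SGa) (hGup : SGup) (hA : SAdm) (k : ℕ) (f : BB) (hf : Lev k f) :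
    Lev (k + 1) f := by
  classical
  obtain ⟨a, ha, rfl⟩ := hf
  have hup : ∀ s ∈ JJ k, s ∈ JJ (k + 1) := by
    intro s hs
    rw [LEV_mem] at hs ⊢
    intro i hi
    have := hs i hi
    omega
  have hjn : ∀ s ∈ JJ k, jn s {k} ∈ JJ (k + 1) := by
    intro s hs
    rw [LEV_mem] at hs ⊢
    intro i hi
    unfold jn at hi
    simp only [Finset.mem_union, Finset.mem_singleton] at hi
    rcases hi with hi | hi
    · have := hs i hi; omega
    · omega
  have hnk : ∀ s ∈ JJ k, k ∉ s.2 := by
    intro s hs hk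
    rw [LEV_mem] at hs
    have := hs k hk
    omega
  have hkj : ∀ s, k ∈ (jn s {k}).2 := by intro s; unfold jn; simp
  have her : ∀ s ∈ JJ k, (((jn s {k}).1, (jn s {k}).2.erase k) : JI) = s := by
    intro s hs
    unfold jn
    refine Prod.ext rfl ?_
    ext i
    simp only [Finset.mem_erase, Finset.mem_union, Finset.mem_singleton]
    constructor
    · rintro ⟨h1, h2 | h2⟩
      · exact h2
      · exact absurd h2 h1
    · intro h
      exact ⟨fun h2 => hnk s hs (h2 ▸ h), Or.inl h⟩
  let a' : JI → JI → C(SS, ℂ) := fun s t =>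
    if k ∈ s.2 then (if k ∈ t.2 then
      ContinuousMap.const SS (a (s.1, s.2.erase k) (t.1, t.2.erase k) (zz k)) else 0)
    else (if k ∈ t.2 then 0 else a s t)
  have e1 : ∀ s ∈ JJ k, ∀ t ∈ JJ k, a' s t = a s t := by
    intro s hs t ht
    show (if k ∈ s.2 then _ else _) = _
    rw [if_neg (hnk s hs), if_neg (hnk t ht)]
  have e2 : ∀ s ∈ JJ k, ∀ t, a' s (jn t {k}) = 0 := by
    intro s hs t
    show (if k ∈ s.2 then _ else _) = _
    rw [if_neg (hnk s hs), if_pos (hkj t)]
  have e3 : ∀ s, ∀ t ∈ JJ k, a' (jn s {k}) t = 0 := by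
    intro s t ht
    show (if k ∈ (jn s {k}).2 then _ else _) = _
    rw [if_pos (hkj s), if_neg (hnk t ht)]
  have e4 : ∀ s ∈ JJ k, ∀ t ∈ JJ k, a' (jn s {k}) (jn t {k}) =
      ContinuousMap.const SS (a s t (zz k)) := by
    intro s hs t ht
    show (if k ∈ (jn s {k}).2 then _ else _) = _
    rw [if_pos (hkj s), if_pos (hkj t), her s hs, her t ht]
  have hcase : ∀ s ∈ JJ (k + 1), s ∈ JJ k ∨ ∃ t ∈ JJ k, s = jn t {k} := by
    intro s hs
    by_cases hk : k ∈ s.2
    · right
      refine ⟨(s.1, s.2.erase k), ?_, ?_⟩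
      · rw [LEV_mem] at hs ⊢
        intro i hi
        rw [Finset.mem_erase] at hi
        have := hs i hi.2
        have h2 := hi.1
        omega
      · unfold jn
        refine Prod.ext rfl ?_
        ext i
        simp only [Finset.mem_union, Finset.mem_erase, Finset.mem_singleton]
        constructor
        · intro h2
          by_cases h3 : i = k
          · right; exact h3
          · left; exact ⟨h3, h2⟩
        · rintro (h2 | h2)
          · exact h2.2
          · rw [h2]; exact hk
    · left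
      rw [LEV_mem] at hs ⊢
      intro i hi
      have := hs i hi
      have h2 : i ≠ k := fun h3 => hk (h3 ▸ hi)
      omega
  refine ⟨a', ?_, ?_⟩
  · intro s hs t ht
    rcases hcase s hs with h1 | ⟨s0, h1, rfl⟩ <;> rcases hcase t ht with h2 | ⟨t0, h2, rfl⟩
    · rw [e1 s h1 t h2]; exact ha s h1 t h2
    · rw [e2 s h1]; exact hA.2.2.2.2.1 _ _
    · rw [e3 _ t h2]; exact hA.2.2.2.2.1 _ _
    · rw [e4 s0 h1 t0 h2]
      exact hA.2.2.2.2.2.2.2 k s0 h1 t0 h2 _
  · rw [LEV_split k]
    simp only [LEV_split k (fun t => GG (k + 1) _ t (a' _ t))]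
    have f1 : ∑ s ∈ JJ k, (∑ t ∈ JJ k, GG (k + 1) s t (a' s t) +
        ∑ t ∈ JJ k, GG (k + 1) s (jn t {k}) (a' s (jn t {k}))) =
        ∑ s ∈ JJ k, ∑ t ∈ JJ k, GG (k + 1) s t (a s t) := by
      refine Finset.sum_congr rfl fun s hs => ?_
      have : ∑ t ∈ JJ k, GG (k + 1) s (jn t {k}) (a' s (jn t {k})) = 0 :=
        Finset.sum_eq_zero fun t ht => by
          rw [e2 s hs, LEV_zero hGa (k + 1) _ _ (hup s hs) (hjn t ht)]
      rw [this, add_zero]
      exact Finset.sum_congr rfl fun t ht => by rw [e1 s hs t ht]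
    have f2 : ∑ s ∈ JJ k, (∑ t ∈ JJ k, GG (k + 1) (jn s {k}) t (a' (jn s {k}) t) +
        ∑ t ∈ JJ k, GG (k + 1) (jn s {k}) (jn t {k}) (a' (jn s {k}) (jn t {k}))) =
        ∑ s ∈ JJ k, ∑ t ∈ JJ k, GG (k + 1) (jn s {k}) (jn t {k})
          (ContinuousMap.const SS (a s t (zz k))) := by
      refine Finset.sum_congr rfl fun s hs => ?_
      have : ∑ t ∈ JJ k, GG (k + 1) (jn s {k}) t (a' (jn s {k}) t) = 0 :=
        Finset.sum_eq_zero fun t ht => by
          rw [e3 s t ht, LEV_zero hGa (k + 1) _ _ (hjn s hs) (hup t ht)]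
      rw [this, zero_add]
      exact Finset.sum_congr rfl fun t ht => by rw [e4 s hs t ht]
    rw [f1, f2, ← Finset.sum_add_distrib]
    refine Finset.sum_congr rfl fun s hs => ?_
    rw [← Finset.sum_add_distrib]
    exact Finset.sum_congr rfl fun t ht => hGup k s t hs ht (a s t)

theorem LEV_mono (hGa : SGa) (hGup : SGup) (hA : SAdm) {k m : ℕ} (hkm : k ≤ m) (f : BB)
    (hf : Lev k f) : Lev m f := by
  induction hkm with
  | refl => exact hf
  | step _ ih => exact LEV_up hGa hGup hA _ f ih

/-- module LEV -/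
theorem sLev (hGa : SGa) (hGup : SGup) (hA : SAdm) : SLev := by
  classical
  have hadd : ∀ k f g, Lev k f → Lev k g → Lev k (f + g) := by
    rintro k f g ⟨a, ha, rfl⟩ ⟨b, hb, rfl⟩
    refine ⟨fun s t => a s t + b s t, fun s hs t ht => hA.1 _ _ _ _ (ha s hs t ht) (hb s hs t ht),
      ?_⟩
    rw [← Finset.sum_add_distrib]
    refine Finset.sum_congr rfl fun s hs => ?_
    rw [← Finset.sum_add_distrib]
    exact Finset.sum_congr rfl fun t ht => (hGa k s t hs ht (a s t)).2.2.1 _
  have hmul : ∀ k f g, Lev k f → Lev k g → Lev k (f * g) := by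
    rintro k f g ⟨a, ha, rfl⟩ ⟨b, hb, rfl⟩
    refine ⟨fun s r => ∑ t ∈ JJ k, a s t * b t r, fun s hs r hr =>
      LEV_asum hA _ _ _ _ fun t ht => hA.2.2.2.1 _ t _ _ _ (ha s hs t ht) (hb t ht r hr), ?_⟩
    rw [Finset.sum_mul]
    refine Finset.sum_congr rfl fun s hs => ?_
    rw [Finset.sum_mul]
    have h1 : ∀ t ∈ JJ k, GG k s t (a s t) * ∑ t' ∈ JJ k, ∑ r ∈ JJ k, GG k t' r (b t' r) =
        ∑ r ∈ JJ k, GG k s r (a s t * b t r) := by
      intro t ht
      rw [Finset.mul_sum, Finset.sum_eq_single t]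
      · rw [Finset.mul_sum]
        refine Finset.sum_congr rfl fun r hr => ?_
        rw [(hGa k s t hs ht (a s t)).2.1 t r ht hr, if_pos rfl]
      · intro t' ht' hne
        rw [Finset.mul_sum]
        refine Finset.sum_eq_zero fun r hr => ?_
        rw [(hGa k s t hs ht (a s t)).2.1 t' r ht' hr, if_neg (Ne.symm hne)]
      · intro h; exact absurd ht h
    rw [Finset.sum_congr rfl h1, Finset.sum_comm]
    refine Finset.sum_congr rfl fun r hr => ?_
    rw [LEV_gsum hGa k s r hs hr]
  have hstar : ∀ k f, Lev k f → Lev k (star f) := by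
    rintro k f ⟨a, ha, rfl⟩
    refine ⟨fun s t => star (a t s), fun s hs t ht => hA.2.2.1 _ _ _ (ha t ht s hs), ?_⟩
    rw [star_sum, Finset.sum_congr rfl fun s _ => star_sum (R := BB) (JJ k) _, Finset.sum_comm]
    refine Finset.sum_congr rfl fun s hs => Finset.sum_congr rfl fun t ht => ?_
    exact (hGa k t s ht hs (a t s)).1
  have hsmul : ∀ k f (c : ℂ), Lev k f → Lev k (c • f) := by
    rintro k f c ⟨a, ha, rfl⟩
    refine ⟨fun s t => c • a s t, fun s hs t ht => hA.2.1 _ _ _ _ (ha s hs t ht), ?_⟩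
    rw [Finset.smul_sum]
    refine Finset.sum_congr rfl fun s hs => ?_
    rw [Finset.smul_sum]
    exact Finset.sum_congr rfl fun t ht => (hGa k s t hs ht (a s t)).2.2.2.1 c
  have hsingle : ∀ k, ∀ s ∈ JJ k, ∀ t ∈ JJ k, ∀ h, Adm s t h → Lev k (GG k s t h) := by
    intro k s hs t ht h hh
    refine ⟨fun s' t' => if s' = s ∧ t' = t then h else 0, ?_, ?_⟩
    · intro s' _ t' _
      beta_reduce
      by_cases h1 : s' = s ∧ t' = t
      · rw [if_pos h1, h1.1, h1.2]; exact hh
      · rw [if_neg h1]; exact hA.2.2.2.2.1 _ _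
    · rw [Finset.sum_eq_single s, Finset.sum_eq_single t]
      · beta_reduce
        rw [if_pos ⟨rfl, rfl⟩]
      · intro t' ht' hne
        beta_reduce
        rw [if_neg (fun h : s = s ∧ t' = t => hne h.2), LEV_zero hGa k _ _ hs ht']
      · intro h; exact absurd ht h
      · intro s' hs' hne
        refine Finset.sum_eq_zero fun t' ht' => ?_
        beta_reduce
        rw [if_neg (fun h : s' = s ∧ t' = t => hne h.1), LEV_zero hGa k _ _ hs' ht']
      · intro h; exact absurd hs h
  have hone : ∀ k, Lev k 1 := by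
    intro k
    refine ⟨fun s t => if s = t then 1 else 0, ?_, ?_⟩
    · intro s _ t _
      beta_reduce
      by_cases h : s = t
      · rw [if_pos h, h]; exact hA.2.2.2.2.2.1 t
      · rw [if_neg h]; exact hA.2.2.2.2.1 _ _
    · have hb : ((istar, ∅) : JI) ∈ JJ k := by rw [LEV_mem]; simp
      rw [← (hGa k _ _ hb hb 0).2.2.2.2.2]
      refine Finset.sum_congr rfl fun s hs => ?_
      rw [Finset.sum_eq_single s]
      · beta_reduce
        rw [if_pos rfl]
      · intro t ht hne
        beta_reduce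
        rw [if_neg (Ne.symm hne), LEV_zero hGa k _ _ hs ht]
      · intro h; exact absurd hs h
  refine ⟨LEV_up hGa hGup hA, fun k f g hf hg => ⟨hadd k f g hf hg, hmul k f g hf hg⟩,
    fun k f hf => ⟨hstar k f hf, fun c => hsmul k f c hf⟩, hone, hsingle, ?_⟩
  intro f
  constructor
  · intro hf
    unfold A0 at hf
    induction hf using StarAlgebra.adjoin_induction with
    | mem x hx => exact hx
    | algebraMap c =>
      refine ⟨0, ?_⟩
      rw [Algebra.algebraMap_eq_smul_one]
      exact hsmul 0 1 c (hone 0)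
    | add x y _ _ hx hy =>
      obtain ⟨k, hk⟩ := hx
      obtain ⟨l, hl⟩ := hy
      exact ⟨max k l, hadd _ _ _ (LEV_mono hGa hGup hA (le_max_left _ _) _ hk)
        (LEV_mono hGa hGup hA (le_max_right _ _) _ hl)⟩
    | mul x y _ _ hx hy =>
      obtain ⟨k, hk⟩ := hx
      obtain ⟨l, hl⟩ := hy
      exact ⟨max k l, hmul _ _ _ (LEV_mono hGa hGup hA (le_max_left _ _) _ hk)
        (LEV_mono hGa hGup hA (le_max_right _ _) _ hl)⟩
    | star x _ hx =>
      obtain ⟨k, hk⟩ := hx
      exact ⟨k, hstar k x hk⟩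
  · intro hf
    exact StarAlgebra.subset_adjoin ℂ _ hf

end Pool.OPP
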