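import Pool.Agent.H92.OPP.Bridge
import Pool.Agent.H65.OPP.STEP
import Pool.Agent.H65.OPP.CLM
import Pool.Agent.H33.OPP.OPS
import Pool.Agent.H33.OPP.LOCP
import Pool.Agent.H4.OPP.CUP
import Pool.Agent.H4.OPP.CUPN
import Pool.Agent.H2.OPP.CUPD
import Pool.Agent.H83.OPP.ROT
import Pool.Agent.H62.OPP.ROTM
import Pool.Agent.H83.OPP.CELL
import Pool.Agent.H15.OPP.IND
import Pool.Agent.H2.OPP.LAB
import Pool.Agent.H83.OPP.UNI
import Pool.Agent.H2.OPP.TTF

/-!
# OPP: the topological block assembled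
-/

namespace Pool.OPP

theorem tt_all : TTStmt :=
  ttf (ind (cell step clm ops locp (cup cupd) cupn cupd rot_thm rotm) cupn cupd) cupd cupn lab uni

end Pool.OPP
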